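import Mathlib

/-! # Inhomogeneous approximation in a planar lattice, with one coordinate large and positive -/

namespace Pool.Agent.K6.H70.PK

/-- Dirichlet: integer combinations of `t1, t2` close to zero -/
lemma dirichlet (t1 t2 : ℝ) (ht2 : t2 ≠ 0) (Q : ℕ) (hQ : 0 < Q) :
    ∃ m n : ℤ, 0 < m ∧ m ≤ Q ∧ |m * t1 + n * t2| ≤ |t2| / Q := by
  obtain ⟨j, k, hk, hkQ, h⟩ := Real.exists_int_int_abs_mul_sub_le (t1 / t2) hQ
  refine ⟨k, -j, hk, hkQ, ?_⟩
  have h1 : (k : ℝ) * t1 + ((-j : ℤ) : ℝ) * t2 = t2 * (k * (t1 / t2) - j) := by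
    push_cast
    field_simp
    ring
  have hQR : (0 : ℝ) < Q := by exact_mod_cast hQ
  have h2 : |k * (t1 / t2) - j| ≤ 1 / (Q : ℝ) := by
    refine h.trans (one_div_le_one_div_of_le hQR ?_)
    linarith
  rw [h1, abs_mul]
  calc |t2| * |k * (t1 / t2) - j| ≤ |t2| * (1 / (Q : ℝ)) :=
        mul_le_mul_of_nonneg_left h2 (abs_nonneg _)
    _ = |t2| / Q := by rw [mul_one_div]

/-- the same with a primitive pair -/
lemma dirichlet_prim (t1 t2 : ℝ) (ht2 : t2 ≠ 0) (Q : ℕ) (hQ : 0 < Q) :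
    ∃ m n : ℤ, IsCoprime m n ∧ 0 < m ∧ m ≤ Q ∧ |m * t1 + n * t2| ≤ |t2| / Q := by
  obtain ⟨m, n, hm, hmQ, h⟩ := dirichlet t1 t2 ht2 Q hQ
  have hg0 : 0 < Int.gcd m n := Int.gcd_pos_of_ne_zero_left _ hm.ne'
  have hgz : (0 : ℤ) < (Int.gcd m n : ℤ) := by exact_mod_cast hg0
  obtain ⟨m', hm'⟩ := Int.gcd_dvd_left (a := m) (b := n)
  obtain ⟨n', hn'⟩ := Int.gcd_dvd_right (a := m) (b := n)
  set G : ℤ := (Int.gcd m n : ℤ) with hG
  have hG1 : (1 : ℤ) ≤ G := by omega
  refine ⟨m', n', ?_, ?_, ?_, ?_⟩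
  · rw [Int.isCoprime_iff_gcd_eq_one]
    have h1 : Int.gcd m n = Int.gcd m n * Int.gcd m' n' := by
      conv_lhs => rw [hm', hn', Int.gcd_mul_left]
      rw [hG, Int.natAbs_natCast]
    have h2 : Int.gcd m n * 1 = Int.gcd m n * Int.gcd m' n' := by omega
    exact (Nat.eq_of_mul_eq_mul_left hg0 h2).symm
  · by_contra hc
    push Not at hc
    have : m ≤ 0 := by rw [hm']; exact mul_nonpos_of_nonneg_of_nonpos hgz.le hc
    omega
  · have h0 : 0 ≤ m' := by
      by_contra hc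
      push Not at hc
      have : m < 0 := by rw [hm']; exact mul_neg_of_pos_of_neg hgz hc
      omega
    have : m' ≤ m := by rw [hm']; nlinarith
    omega
  · have h1 : (m : ℝ) * t1 + n * t2 = (G : ℝ) * (m' * t1 + n' * t2) := by
      rw [hm', hn']; push_cast; ring
    rw [h1, abs_mul] at h
    have h2 : (1 : ℝ) ≤ |(G : ℝ)| := by
      rw [abs_of_pos (by exact_mod_cast hgz)]
      exact_mod_cast hG1
    have h3 := abs_nonneg ((m' : ℝ) * t1 + n' * t2)
    nlinarith

/-- integer combinations `(s, t)` of `(s1, t1)`, `(s2, t2)` with `s` large and `t` within `C / s` of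
a given number -/
theorem lattice (s1 t1 s2 t2 : ℝ) (hD : s1 * t2 - s2 * t1 ≠ 0)
    (hirr : ∀ m n : ℤ, (m : ℝ) * t1 + n * t2 = 0 → m = 0 ∧ n = 0) (t0 : ℝ) :
    ∃ C : ℝ, 0 < C ∧ ∀ S0 : ℝ, ∃ m n : ℤ, S0 ≤ m * s1 + n * s2 ∧ 0 < m * s1 + n * s2 ∧
      |m * t1 + n * t2 - t0| ≤ C / (m * s1 + n * s2) := by
  have ht2 : t2 ≠ 0 := by
    intro h
    have := (hirr 0 1 (by rw [h]; simp)).2
    omega
  set D : ℝ := s1 * t2 - s2 * t1 with hDdef
  -- `|s| ≤ A * Q` for the Dirichlet pairs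
  set A : ℝ := |s1| + |s2| * (|t1| / |t2| + 1) with hA
  have hA0 : 0 ≤ A := by positivity
  have ht2' : 0 < |t2| := abs_pos.2 ht2
  have hDpos : 0 < |D| := abs_pos.2 hD
  refine ⟨4 * (|t2| * A + |D|), by positivity, fun S0 => ?_⟩
  -- choose `Q` such that `|s_w|` is large
  obtain ⟨Q0, hQ0⟩ : ∃ Q0 : ℕ, 0 < Q0 ∧ ∀ Q : ℕ, Q0 ≤ Q → ∀ m n : ℤ, (m ≠ 0 ∨ n ≠ 0) →
      |m * t1 + n * t2| ≤ |t2| / Q → |S0| + 1 ≤ |m * s1 + n * s2| := by
    -- pairs with `|s| < |S0| + 1` and `|t| ≤ |t2|` are bounded, hence finitely many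
    set B : ℝ := ((|S0| + 1) * (|t1| + |t2|) + |t2| * (|s1| + |s2|)) / |D| with hB
    have hbd : ∀ m n : ℤ, |m * s1 + n * s2| < |S0| + 1 → |m * t1 + n * t2| ≤ |t2| →
        |(m : ℝ)| ≤ B ∧ |(n : ℝ)| ≤ B := by
      intro m n h1 h2
      have e1 : (m : ℝ) * D = (m * s1 + n * s2) * t2 - (m * t1 + n * t2) * s2 := by
        rw [hDdef]; ring
      have e2 : (n : ℝ) * D = (m * t1 + n * t2) * s1 - (m * s1 + n * s2) * t1 := by
        rw [hDdef]; ring
      constructor
      · rw [hB, le_div_iff₀ hDpos, ← abs_mul, e1]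
        calc |(m * s1 + n * s2) * t2 - (m * t1 + n * t2) * s2|
            ≤ |(m * s1 + n * s2) * t2| + |(m * t1 + n * t2) * s2| := abs_sub _ _
          _ ≤ (|S0| + 1) * |t2| + |t2| * |s2| := by
              rw [abs_mul, abs_mul]
              have := mul_le_mul_of_nonneg_right h1.le (abs_nonneg t2)
              have := mul_le_mul_of_nonneg_right h2 (abs_nonneg s2)
              linarith
          _ ≤ _ := by
              have h3 : 0 ≤ (|S0| + 1) * |t1| := by positivity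
              have h4 : 0 ≤ |t2| * |s1| := by positivity
              nlinarith
      · rw [hB, le_div_iff₀ hDpos, ← abs_mul, e2]
        calc |(m * t1 + n * t2) * s1 - (m * s1 + n * s2) * t1|
            ≤ |(m * t1 + n * t2) * s1| + |(m * s1 + n * s2) * t1| := abs_sub _ _
          _ ≤ |t2| * |s1| + (|S0| + 1) * |t1| := by
              rw [abs_mul, abs_mul]
              have := mul_le_mul_of_nonneg_right h1.le (abs_nonneg t1)
              have := mul_le_mul_of_nonneg_right h2 (abs_nonneg s1)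
              linarith
          _ ≤ _ := by
              have h3 : 0 ≤ (|S0| + 1) * |t2| := by positivity
              have h4 : 0 ≤ |t2| * |s2| := by positivity
              nlinarith
    set F : Finset (ℤ × ℤ) := (Finset.Icc (-⌈B⌉) ⌈B⌉ ×ˢ Finset.Icc (-⌈B⌉) ⌈B⌉).filter
      (fun p => p ≠ (0, 0)) with hF
    -- positive lower bound for `|t|` on `F`
    obtain ⟨δ, hδ, hδF⟩ : ∃ δ : ℝ, 0 < δ ∧ ∀ p ∈ F, δ ≤ |(p.1 : ℝ) * t1 + p.2 * t2| := by
      by_cases hFe : F.Nonempty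
      · obtain ⟨p0, hp0, hmin⟩ := F.exists_min_image (fun p => |(p.1 : ℝ) * t1 + p.2 * t2|) hFe
        refine ⟨|(p0.1 : ℝ) * t1 + p0.2 * t2|, abs_pos.2 ?_, hmin⟩
        intro h0
        have := hirr p0.1 p0.2 h0
        rw [hF, Finset.mem_filter] at hp0
        exact hp0.2 (Prod.ext this.1 this.2)
      · exact ⟨1, one_pos, fun p hp => absurd ⟨p, hp⟩ hFe⟩
    obtain ⟨Q1, hQ1⟩ := exists_nat_gt (|t2| / δ)
    refine ⟨max Q1 1, by positivity, fun Q hQ m n hmn h => ?_⟩
    have hQ1' : (1 : ℝ) ≤ Q := by exact_mod_cast (le_max_right Q1 1).trans hQ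
    have hQ2 : |t2| / δ < Q := lt_of_lt_of_le hQ1 (by exact_mod_cast (le_max_left Q1 1).trans hQ)
    by_contra hc
    push Not at hc
    have h2 : |m * t1 + n * t2| ≤ |t2| := h.trans (div_le_self ht2'.le hQ1')
    obtain ⟨hb1, hb2⟩ := hbd m n hc h2
    have hmem : (m, n) ∈ F := by
      rw [hF, Finset.mem_filter, Finset.mem_product, Finset.mem_Icc, Finset.mem_Icc]
      have hm := abs_le.1 hb1
      have hn := abs_le.1 hb2
      have hB' := Int.le_ceil B
      refine ⟨⟨⟨?_, ?_⟩, ⟨?_, ?_⟩⟩, ?_⟩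
      · have : -((⌈B⌉ : ℤ) : ℝ) ≤ m := by linarith [hm.1]
        exact_mod_cast this
      · have : (m : ℝ) ≤ ((⌈B⌉ : ℤ) : ℝ) := by linarith [hm.2]
        exact_mod_cast this
      · have : -((⌈B⌉ : ℤ) : ℝ) ≤ n := by linarith [hn.1]
        exact_mod_cast this
      · have : (n : ℝ) ≤ ((⌈B⌉ : ℤ) : ℝ) := by linarith [hn.2]
        exact_mod_cast this
      · intro h0
        rw [Prod.mk.injEq] at h0
        rcases hmn with h1 | h1
        · exact h1 h0.1
        · exact h1 h0.2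
    have h3 := hδF _ hmem
    have h4 : |t2| / Q < δ := by
      rw [div_lt_iff₀ (by linarith)]
      rw [div_lt_iff₀ hδ] at hQ2
      linarith
    linarith
  obtain ⟨hQ0pos, hQ0⟩ := hQ0
  obtain ⟨m, n, hcop, hm, hmQ, hw⟩ := dirichlet_prim t1 t2 ht2 Q0 hQ0pos
  have hbig := hQ0 Q0 le_rfl m n (Or.inl hm.ne') hw
  set sw : ℝ := m * s1 + n * s2 with hsw
  set tw : ℝ := m * t1 + n * t2 with htw
  have hQr : (0 : ℝ) < Q0 := by exact_mod_cast hQ0pos
  have hsw0 : 0 < |sw| := by linarith [abs_nonneg S0]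
  have hswne : sw ≠ 0 := abs_pos.1 hsw0
  -- `|sw| ≤ A Q`
  have hswA : |sw| ≤ A * Q0 := by
    have hmR : (0 : ℝ) < m := by exact_mod_cast hm
    have hmR2 : (m : ℝ) ≤ Q0 := by exact_mod_cast hmQ
    have hQ1 : (1 : ℝ) ≤ Q0 := by exact_mod_cast hQ0pos
    have hn : |(n : ℝ)| ≤ Q0 * (|t1| / |t2| + 1) := by
      have e : (n : ℝ) * t2 = tw - m * t1 := by rw [htw]; ring
      have h1 : |(n : ℝ)| * |t2| ≤ |t2| + Q0 * |t1| := by
        rw [← abs_mul, e]
        calc |tw - m * t1| ≤ |tw| + |m * t1| := abs_sub _ _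
          _ ≤ |t2| + Q0 * |t1| := by
            have h2 : |tw| ≤ |t2| := hw.trans (div_le_self ht2'.le hQ1)
            have h3 : |(m : ℝ) * t1| ≤ Q0 * |t1| := by
              rw [abs_mul, abs_of_pos hmR]
              exact mul_le_mul_of_nonneg_right hmR2 (abs_nonneg _)
            linarith
      have h2 : |(n : ℝ)| ≤ (|t2| + Q0 * |t1|) / |t2| := by rwa [le_div_iff₀ ht2']
      refine h2.trans ?_
      rw [add_div, div_self ht2'.ne', mul_add, mul_one, mul_div_assoc]
      linarith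
    calc |sw| ≤ |m * s1| + |n * s2| := abs_add_le _ _
      _ = m * |s1| + |(n : ℝ)| * |s2| := by rw [abs_mul, abs_mul, abs_of_pos hmR]
      _ ≤ Q0 * |s1| + (Q0 * (|t1| / |t2| + 1)) * |s2| := by
        have := mul_le_mul_of_nonneg_right hmR2 (abs_nonneg s1)
        have := mul_le_mul_of_nonneg_right hn (abs_nonneg s2)
        linarith
      _ = A * Q0 := by rw [hA]; ring
  have htwA : |tw| * |sw| ≤ |t2| * A := by
    calc |tw| * |sw| ≤ (|t2| / Q0) * (A * Q0) :=
          mul_le_mul hw hswA (abs_nonneg _) (by positivity)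
      _ = |t2| * A := by field_simp
  -- complete to a basis
  obtain ⟨a, b, hab⟩ := hcop
  -- `m * a + n * b = 1`; `w' = (-b, a)` up to multiples of `(m, n)`
  set s' : ℝ := -b * s1 + a * s2 with hs'
  set t' : ℝ := -b * t1 + a * t2 with ht'
  have habR : (a : ℝ) * m + b * n = 1 := by exact_mod_cast hab
  have hdet : sw * t' - s' * tw = D := by
    rw [hsw, ht', hs', htw, hDdef]
    linear_combination (s1 * t2 - s2 * t1) * habR
  -- reduce modulo `w`
  set k : ℤ := round (s' / sw) with hk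
  set s'' : ℝ := s' - k * sw with hs''
  set t'' : ℝ := t' - k * tw with ht''
  have hs''b : |s''| ≤ |sw| / 2 := by
    have h1 := abs_sub_round (s' / sw)
    have h2 : s'' = (s' / sw - k) * sw := by
      rw [hs'']; field_simp
    rw [h2, abs_mul]
    have : |s' / sw - k| ≤ 1 / 2 := h1
    nlinarith [abs_nonneg sw]
  have hdet2 : sw * t'' - s'' * tw = D := by
    rw [hs'', ht'', ← hdet]; ring
  have ht''b : |t''| ≤ |D| / |sw| + |tw| / 2 := by
    have h1 : t'' = (D + s'' * tw) / sw := by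
      field_simp
      linarith
    rw [h1, abs_div, div_le_iff₀ hsw0, add_mul, div_mul_cancel₀ _ hsw0.ne']
    calc |D + s'' * tw| ≤ |D| + |s'' * tw| := abs_add_le _ _
      _ ≤ |D| + |tw| / 2 * |sw| := by
        rw [abs_mul]
        have := mul_le_mul_of_nonneg_right hs''b (abs_nonneg tw)
        linarith
  -- the target point
  set σ : ℝ := 2 * |sw| with hσ
  -- real coordinates of `(σ, t0)` in the basis `(sw, tw), (s'', t'')`
  set α : ℝ := (σ * t'' - s'' * t0) / D with hα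
  set β : ℝ := (sw * t0 - σ * tw) / D with hβ
  have eσ : α * sw + β * s'' = σ := by
    rw [hα, hβ, div_mul_eq_mul_div, div_mul_eq_mul_div, ← add_div, div_eq_iff hD, ← hdet2]
    ring
  have et : α * tw + β * t'' = t0 := by
    rw [hα, hβ, div_mul_eq_mul_div, div_mul_eq_mul_div, ← add_div, div_eq_iff hD, ← hdet2]
    ring
  set x : ℤ := round α with hx
  set y : ℤ := round β with hy
  have hxa : |(x : ℝ) - α| ≤ 1 / 2 := by rw [abs_sub_comm]; exact abs_sub_round α
  have hyb : |(y : ℝ) - β| ≤ 1 / 2 := by rw [abs_sub_comm]; exact abs_sub_round β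
  have hsfin : |(x * sw + y * s'') - σ| ≤ 3 / 4 * |sw| := by
    have e : (x * sw + y * s'') - σ = (x - α) * sw + (y - β) * s'' := by rw [← eσ]; ring
    rw [e]
    calc |((x : ℝ) - α) * sw + (y - β) * s''| ≤ |((x : ℝ) - α) * sw| + |((y : ℝ) - β) * s''| :=
          abs_add_le _ _
      _ ≤ 1 / 2 * |sw| + 1 / 2 * (|sw| / 2) := by
        rw [abs_mul, abs_mul]
        have h1 := mul_le_mul hxa le_rfl (abs_nonneg sw) (by norm_num)
        have h2 := mul_le_mul hyb hs''b (abs_nonneg s'') (by norm_num)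
        linarith
      _ = 3 / 4 * |sw| := by ring
  have htfin : |(x * tw + y * t'') - t0| ≤ |tw| + |D| / (2 * |sw|) := by
    have e : (x * tw + y * t'') - t0 = (x - α) * tw + (y - β) * t'' := by
      conv_lhs => rw [← et]
      ring
    rw [e]
    calc |((x : ℝ) - α) * tw + (y - β) * t''| ≤ |((x : ℝ) - α) * tw| + |((y : ℝ) - β) * t''| :=
          abs_add_le _ _
      _ ≤ 1 / 2 * |tw| + 1 / 2 * (|D| / |sw| + |tw| / 2) := by
        rw [abs_mul, abs_mul]
        have h1 := mul_le_mul hxa le_rfl (abs_nonneg tw) (by norm_num)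
        have h2 := mul_le_mul hyb ht''b (abs_nonneg t'') (by norm_num)
        linarith
      _ ≤ |tw| + |D| / (2 * |sw|) := by
        have : |D| / (2 * |sw|) = 1 / 2 * (|D| / |sw|) := by field_simp
        rw [this]
        linarith [abs_nonneg tw]
  -- the integer pair
  refine ⟨x * m + y * (-b - k * m), x * n + y * (a - k * n), ?_⟩
  have es : ((x * m + y * (-b - k * m) : ℤ) : ℝ) * s1 + ((x * n + y * (a - k * n) : ℤ) : ℝ) * s2
      = x * sw + y * s'' := by
    rw [hs'', hs', hsw]; push_cast; ring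
  have ett : ((x * m + y * (-b - k * m) : ℤ) : ℝ) * t1 + ((x * n + y * (a - k * n) : ℤ) : ℝ) * t2
      = x * tw + y * t'' := by
    rw [ht'', ht', htw]; push_cast; ring
  rw [es, ett]
  have hs1 := abs_le.1 hsfin
  have hslo : |sw| ≤ x * sw + y * s'' := by rw [hσ] at hs1; linarith [hs1.1]
  have hshi : x * sw + y * s'' ≤ 3 * |sw| := by rw [hσ] at hs1; linarith [hs1.2]
  have hpos : 0 < x * sw + y * s'' := lt_of_lt_of_le hsw0 hslo
  refine ⟨?_, hpos, ?_⟩
  · linarith [le_abs_self S0]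
  · rw [le_div_iff₀ hpos]
    calc |x * tw + y * t'' - t0| * (x * sw + y * s'')
        ≤ (|tw| + |D| / (2 * |sw|)) * (3 * |sw|) :=
          mul_le_mul htfin hshi hpos.le (by positivity)
      _ = 3 * (|tw| * |sw|) + 3 / 2 * |D| := by field_simp
      _ ≤ 4 * (|t2| * A + |D|) := by
        have : 0 ≤ |t2| * A := by positivity
        linarith

end Pool.Agent.K6.H70.PK
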