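import Mathlib
import Pool.Agent.R629.CSD.Main
import Pool.Agent.K6.H70.PK.Lat

/-! # Units of cubic fields: one conjugate of prescribed ratio to another -/

open NumberField H715R2

namespace Pool.Agent.K6.H70.PK

variable {K : Type*} [Field K] [NumberField K]

/-- in a cubic field an element with two equal conjugates is rational -/
lemma rat_of_eq (hK : Module.finrank ℚ K = 3) {a b : K →+* ℂ} (hab : a ≠ b) {z : K}
    (h : a z = b z) : ∃ q : ℚ, z = algebraMap ℚ K q := by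
  set F := eqF a b with hF
  have hne : F ≠ ⊤ := by
    intro htop
    apply hab
    ext z
    have : z ∈ F := by rw [htop]; trivial
    exact this
  have h1 : Module.finrank F K ≠ 1 := by
    intro h1
    exact hne (IntermediateField.finrank_eq_one_iff_eq_top.1 h1)
  have h2 : Module.finrank ℚ F * Module.finrank F K = 3 := by
    rw [Module.finrank_mul_finrank, hK]
  have h3 : Module.finrank F K ∣ 3 := ⟨_, by rw [mul_comm]; exact h2.symm⟩
  have h4 : Module.finrank F K = 3 := by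
    rcases (Nat.dvd_prime Nat.prime_three).1 h3 with h | h
    · exact absurd h h1
    · exact h
  have h5 : Module.finrank ℚ F = 1 := by
    rw [h4] at h2
    omega
  have h6 : F = ⊥ := IntermediateField.finrank_eq_one_iff.1 h5
  have h7 : z ∈ F := h
  rw [h6, IntermediateField.mem_bot] at h7
  obtain ⟨q, hq⟩ := h7
  exact ⟨q, hq.symm⟩

lemma same_of_eq (hK : Module.finrank ℚ K = 3) {a b : K →+* ℂ} (hab : a ≠ b) {z : K}
    (h : a z = b z) (τ τ' : K →+* ℂ) : τ z = τ' z := by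
  obtain ⟨q, rfl⟩ := rat_of_eq hK hab h
  simp

lemma prod_norm (N : ℕ) (v : (𝓞 K)ˣ) : ∏ τ : K →+* ℂ, ‖τ (uu N v)‖ = 1 := by
  have h1 : |(RingOfIntegers.norm ℚ ((v ^ N : (𝓞 K)ˣ) : 𝓞 K) : ℚ)| = 1 :=
    NumberField.isUnit_iff_norm.1 (v ^ N : (𝓞 K)ˣ).isUnit
  rw [RingOfIntegers.coe_norm] at h1
  have h2 := Algebra.norm_eq_prod_embeddings ℚ ℂ (uu N v)
  have h3 : ∏ τ : K →+* ℂ, τ (uu N v) = ((Algebra.norm ℚ (uu N v) : ℚ) : ℂ) := by
    rw [eq_ratCast] at h2
    rw [h2, ← Fintype.prod_equiv (RingHom.equivRatAlgHom K ℂ) (fun f => f (uu N v))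
      (fun φ => φ (uu N v)) fun _ => by simp [RingHom.equivRatAlgHom_apply]]
  rw [← norm_prod, h3, Complex.norm_ratCast]
  have h4 : |(Algebra.norm ℚ (uu N v) : ℚ)| = 1 := h1
  exact_mod_cast h4

lemma real_pos {N : ℕ} (hNe : Even N) (v : (𝓞 K)ˣ) {τ : K →+* ℂ} (hτ : ComplexEmbedding.IsReal τ) :
    τ (uu N v) = ((‖τ (uu N v)‖ : ℝ) : ℂ) := by
  have h1 : ∀ z : K, (((τ z).re : ℝ) : ℂ) = τ z := by
    intro z
    have := congrArg (fun f : K →+* ℂ => f z) (ComplexEmbedding.isReal_iff.1 hτ)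
    simp only [ComplexEmbedding.conjugate_coe_eq] at this
    exact Complex.conj_eq_iff_re.1 this
  have h2 : uu N v = ((v : 𝓞 K) : K) ^ N := by
    simp [uu]
  obtain ⟨r, hr⟩ : ∃ r : ℝ, τ ((v : 𝓞 K) : K) = (r : ℂ) := ⟨_, (h1 _).symm⟩
  rw [h2, map_pow, hr, ← Complex.ofReal_pow, Complex.norm_real, Real.norm_of_nonneg (hNe.pow_nonneg r)]

lemma uu_zpow (N : ℕ) (v : (𝓞 K)ˣ) (m : ℤ) : uu N (v ^ m) = uu N v ^ m := by
  have h : ∀ (w : (𝓞 K)ˣ), uu N w = (Units.map (algebraMap (𝓞 K) K).toMonoidHom (w ^ N) : Kˣ) := by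
    intro w
    simp [uu]
  rw [h, h, ← Units.val_zpow_eq_zpow_val]
  congr 1
  rw [← map_zpow, ← zpow_natCast, ← zpow_natCast, ← zpow_mul, ← zpow_mul, mul_comm]

/-- units with the values `exp (ε s + κ t), exp (ε s - κ t), exp (- 2 ε s)` at three embeddings,
`s` large and `t` near `t0` -/
def Approx (N : ℕ) (a b c : K →+* ℂ) (ε : ℝ) (κ : ℂ) : Prop :=
  ∀ t0 : ℝ, ∃ C : ℝ, 0 < C ∧ ∀ S0 : ℝ, ∃ (v : (𝓞 K)ˣ) (s t : ℝ), S0 ≤ s ∧ 0 < s ∧
    |t - t0| ≤ C / s ∧ a (uu N v) = Complex.exp (ε * s + κ * t) ∧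
    b (uu N v) = Complex.exp (ε * s - κ * t) ∧ c (uu N v) = Complex.exp (-2 * ε * s)

lemma exp_log_norm (z : ℂ) (hz : z ≠ 0) (h : z = ((‖z‖ : ℝ) : ℂ)) :
    z = Complex.exp ((Real.log ‖z‖ : ℝ) : ℂ) := by
  rw [← Complex.ofReal_exp, Real.exp_log (norm_pos_iff.2 hz)]
  exact h

theorem approx_real (hK : Module.finrank ℚ K = 3) {N : ℕ} (hN : 0 < N) (hNe : Even N)
    {a b c : K →+* ℂ} (hab : a ≠ b) (hac : a ≠ c) (hbc : b ≠ c)
    (ha : ComplexEmbedding.IsReal a) (hb : ComplexEmbedding.IsReal b)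
    (hc : ComplexEmbedding.IsReal c) (hall : ∀ τ : K →+* ℂ, τ = a ∨ τ = b ∨ τ = c)
    {ε : ℝ} (hε : ε = 1 ∨ ε = -1) : Approx N a b c ε (1 / 2) := by
  classical
  intro t0
  have huniv : (Finset.univ : Finset (K →+* ℂ)) = {a, b, c} := by
    ext τ
    simp [hall τ]
  have hsum : ∀ f : (K →+* ℂ) → ℝ, ∑ τ, f τ = f a + f b + f c := by
    intro f
    rw [huniv, Finset.sum_insert (by simp [hab, hac]), Finset.sum_insert (by simp [hbc]),
      Finset.sum_singleton]
    ring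
  have hε2 : ε * ε = 1 := by rcases hε with h | h <;> rw [h] <;> norm_num
  -- logarithms
  set la : (𝓞 K)ˣ → ℝ := fun v => Real.log ‖a (uu N v)‖ with hla
  set lb : (𝓞 K)ˣ → ℝ := fun v => Real.log ‖b (uu N v)‖ with hlb
  set lc : (𝓞 K)ˣ → ℝ := fun v => Real.log ‖c (uu N v)‖ with hlc
  have hzero : ∀ v, la v + lb v + lc v = 0 := by
    intro v
    have h1 := congrArg Real.log (prod_norm N v)
    rw [Real.log_prod (fun τ _ => (norm_pos_iff.2 (tau_ne N v τ)).ne'), Real.log_one, hsum] at h1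
    exact h1
  have hmul : ∀ (τ : K →+* ℂ) (v w : (𝓞 K)ˣ) (m n : ℤ),
      Real.log ‖τ (uu N (v ^ m * w ^ n))‖ =
        m * Real.log ‖τ (uu N v)‖ + n * Real.log ‖τ (uu N w)‖ := by
    intro τ v w m n
    rw [uu_mul, uu_zpow, uu_zpow, map_mul, map_zpow₀, map_zpow₀, norm_mul, norm_zpow, norm_zpow,
      Real.log_mul, Real.log_zpow, Real.log_zpow]
    · exact zpow_ne_zero _ (norm_ne_zero_iff.2 (tau_ne N v τ))
    · exact zpow_ne_zero _ (norm_ne_zero_iff.2 (tau_ne N w τ))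
  -- two units
  have hmk : ∀ {σ τ : K →+* ℂ}, ComplexEmbedding.IsReal σ → σ ≠ τ →
      InfinitePlace.mk σ ≠ InfinitePlace.mk τ := by
    intro σ τ hσ hne h
    rcases InfinitePlace.mk_eq_iff.1 h with h | h
    · exact hne h
    · rw [ComplexEmbedding.isReal_iff.1 hσ] at h
      exact hne h
  obtain ⟨R, hR, hnear⟩ := exists_unit_pow_near (K := K) N hN
  set L : ℝ := 100 * (R + 1) with hL
  have hLpos : 0 < L := by rw [hL]; linarith
  obtain ⟨v1, hv1⟩ := hnear (fun w => if w = InfinitePlace.mk a then L else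
      if w = InfinitePlace.mk c then -L else 0) (by
    rw [hsum]
    simp [hmk hb hab.symm, hmk hb hbc, (hmk ha hac).symm])
  obtain ⟨v2, hv2⟩ := hnear (fun w => if w = InfinitePlace.mk b then L else
      if w = InfinitePlace.mk c then -L else 0) (by
    rw [hsum]
    simp [hmk ha hab, hmk ha hac, (hmk hb hbc).symm])
  have e1 := hv1 a
  have e2 := hv1 b
  have e3 := hv2 a
  have e4 := hv2 b
  simp only [if_true, hmk hb hab.symm, hmk hb hbc, if_false, hmk ha hab, hmk ha hac, sub_zero]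
    at e1 e2 e3 e4
  change |la v1 - L| ≤ R at e1
  change |lb v1| ≤ R at e2
  change |la v2| ≤ R at e3
  change |lb v2 - L| ≤ R at e4
  rw [abs_le] at e1 e2 e3 e4
  set s1 : ℝ := ε * (la v1 + lb v1) / 2 with hs1
  set s2 : ℝ := ε * (la v2 + lb v2) / 2 with hs2
  set t1 : ℝ := la v1 - lb v1 with ht1
  set t2 : ℝ := la v2 - lb v2 with ht2
  have hD : s1 * t2 - s2 * t1 ≠ 0 := by
    have h1 : s1 * t2 - s2 * t1 = - ε * (la v1 * lb v2 - lb v1 * la v2) := by
      rw [hs1, hs2, ht1, ht2]; ring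
    rw [h1]
    have hεne : ε ≠ 0 := by rcases hε with h | h <;> rw [h] <;> norm_num
    refine mul_ne_zero (neg_ne_zero.2 hεne) (ne_of_gt ?_)
    have h2 : (L - R) * (L - R) ≤ la v1 * lb v2 :=
      mul_le_mul (by linarith [e1.1]) (by linarith [e4.1]) (by rw [hL]; linarith)
        (by rw [hL] at e1; linarith [e1.1])
    have h3 : |lb v1 * la v2| ≤ R * R := by
      rw [abs_mul]
      exact mul_le_mul (abs_le.2 e2) (abs_le.2 e3) (abs_nonneg _) hR
    have h4 := (abs_le.1 h3).2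
    have h5 : R * R < (L - R) * (L - R) := by
      rw [hL]
      nlinarith
    linarith
  have hlog : ∀ m n : ℤ, la (v1 ^ m * v2 ^ n) = m * la v1 + n * la v2 ∧
      lb (v1 ^ m * v2 ^ n) = m * lb v1 + n * lb v2 := fun m n =>
    ⟨hmul a v1 v2 m n, hmul b v1 v2 m n⟩
  have hirr : ∀ m n : ℤ, (m : ℝ) * t1 + n * t2 = 0 → m = 0 ∧ n = 0 := by
    intro m n h
    set w := v1 ^ m * v2 ^ n with hw
    obtain ⟨h1, h2⟩ := hlog m n
    have h3 : la w = lb w := by
      rw [h1, h2]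
      rw [ht1, ht2] at h
      linarith
    have h4 : a (uu N w) = b (uu N w) := by
      rw [real_pos hNe w ha, real_pos hNe w hb]
      have h5 : ‖a (uu N w)‖ = ‖b (uu N w)‖ :=
        Real.log_injOn_pos (norm_pos_iff.2 (tau_ne N w a)) (norm_pos_iff.2 (tau_ne N w b)) h3
      rw [h5]
    have h5 : lc w = la w := by
      simp only [hla, hlc]
      rw [same_of_eq hK hab h4 c a]
    have h6 := hzero w
    have h7 : la w = 0 := by linarith
    have h8 : lb w = 0 := by linarith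
    rw [h1] at h7
    rw [h2] at h8
    have hs : (m : ℝ) * s1 + n * s2 = 0 := by
      rw [hs1, hs2]
      linear_combination (ε / 2) * h7 + (ε / 2) * h8
    have hm : (m : ℝ) * (s1 * t2 - s2 * t1) = 0 := by
      linear_combination t2 * hs - s2 * h
    have hn : (n : ℝ) * (s1 * t2 - s2 * t1) = 0 := by
      linear_combination s1 * h - t1 * hs
    constructor
    · rcases mul_eq_zero.1 hm with h | h
      · exact_mod_cast h
      · exact absurd h hD
    · rcases mul_eq_zero.1 hn with h | h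
      · exact_mod_cast h
      · exact absurd h hD
  obtain ⟨C, hC, hlat⟩ := lattice s1 t1 s2 t2 hD hirr t0
  refine ⟨C, hC, fun S0 => ?_⟩
  obtain ⟨m, n, hS, hpos, ht⟩ := hlat S0
  set w := v1 ^ m * v2 ^ n with hw
  obtain ⟨h1, h2⟩ := hlog m n
  have hs : (m : ℝ) * s1 + n * s2 = ε * (la w + lb w) / 2 := by
    rw [h1, h2, hs1, hs2]; ring
  have htt : (m : ℝ) * t1 + n * t2 = la w - lb w := by
    rw [h1, h2, ht1, ht2]; ring
  refine ⟨w, m * s1 + n * s2, m * t1 + n * t2, hS, hpos, ht, ?_, ?_, ?_⟩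
  · rw [exp_log_norm _ (tau_ne N w a) (real_pos hNe w ha)]
    congr 1
    rw [hs, htt]
    push_cast
    change ((la w : ℝ) : ℂ) = _
    have : (ε : ℂ) * ε = 1 := by exact_mod_cast hε2
    linear_combination (-(la w : ℂ) / 2 - (lb w : ℂ) / 2) * this
  · rw [exp_log_norm _ (tau_ne N w b) (real_pos hNe w hb)]
    congr 1
    rw [hs, htt]
    push_cast
    change ((lb w : ℝ) : ℂ) = _
    have : (ε : ℂ) * ε = 1 := by exact_mod_cast hε2
    linear_combination (-(la w : ℂ) / 2 - (lb w : ℂ) / 2) * this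
  · rw [exp_log_norm _ (tau_ne N w c) (real_pos hNe w hc)]
    congr 1
    rw [hs]
    push_cast
    change ((lc w : ℝ) : ℂ) = _
    have h0 : (la w : ℂ) + lb w + lc w = 0 := by exact_mod_cast hzero w
    have : (ε : ℂ) * ε = 1 := by exact_mod_cast hε2
    linear_combination h0 + ((la w : ℂ) + (lb w : ℂ)) * this

end Pool.Agent.K6.H70.PK
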