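import Mathlib
import Pool.Agent.K6.H70.PK.Cub

/-! # Units of complex cubic fields: a complex conjugate with prescribed argument -/

open NumberField H715R2

namespace Pool.Agent.K6.H70.PK

variable {K : Type*} [Field K] [NumberField K]

theorem approx_cplx (hK : Module.finrank ℚ K = 3) {N : ℕ} (hN : 0 < N) (hNe : Even N)
    {a b c : K →+* ℂ} (hab : a ≠ b) (hac : a ≠ c) (hbc : b ≠ c)
    (hb : b = ComplexEmbedding.conjugate a)
    (hc : ComplexEmbedding.IsReal c) (hall : ∀ τ : K →+* ℂ, τ = a ∨ τ = b ∨ τ = c)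
    {ε : ℝ} (hε : ε = 1 ∨ ε = -1) : Approx N a b c ε Complex.I := by
  classical
  intro t0
  have huniv : (Finset.univ : Finset (K →+* ℂ)) = {a, b, c} := by
    ext τ
    simp [hall τ]
  have hsum : ∀ f : (K →+* ℂ) → ℝ, ∑ τ, f τ = f a + f b + f c := by
    intro f
    rw [huniv, Finset.sum_insert (by simp [hab, hac]), Finset.sum_insert (by simp [hbc]),
      Finset.sum_singleton]
    ring
  have hε2 : ε * ε = 1 := by rcases hε with h | h <;> rw [h] <;> norm_num
  have hεne : ε ≠ 0 := by rcases hε with h | h <;> rw [h] <;> norm_num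
  have hconj : ∀ z : K, b z = (starRingEnd ℂ) (a z) := by
    intro z
    rw [hb, ComplexEmbedding.conjugate_coe_eq]
  set la : (𝓞 K)ˣ → ℝ := fun v => Real.log ‖a (uu N v)‖ with hla
  set lc : (𝓞 K)ˣ → ℝ := fun v => Real.log ‖c (uu N v)‖ with hlc
  have hzero : ∀ v, 2 * la v + lc v = 0 := by
    intro v
    have h1 := congrArg Real.log (prod_norm N v)
    rw [Real.log_prod (fun τ _ => (norm_pos_iff.2 (tau_ne N v τ)).ne'), Real.log_one, hsum] at h1
    have h2 : ‖b (uu N v)‖ = ‖a (uu N v)‖ := by rw [hconj, Complex.norm_conj]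
    rw [h2] at h1
    simp only [hla, hlc]
    linarith
  have hmk : InfinitePlace.mk b = InfinitePlace.mk a := by
    rw [hb]
    exact InfinitePlace.mk_conjugate_eq a
  have hmkc : InfinitePlace.mk c ≠ InfinitePlace.mk a := by
    intro h
    rcases InfinitePlace.mk_eq_iff.1 h with h | h
    · exact hac h.symm
    · rw [ComplexEmbedding.isReal_iff.1 hc] at h
      exact hac h.symm
  obtain ⟨R, hR, hnear⟩ := exists_unit_pow_near (K := K) N hN
  set L : ℝ := R + 1 with hL
  obtain ⟨v1, hv1⟩ := hnear (fun w => if w = InfinitePlace.mk a then L else -(2 * L)) (by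
    rw [hsum]
    simp only [hmk, if_true, hmkc, if_false]
    ring)
  have e1 := hv1 a
  simp only [if_true] at e1
  change |la v1 - L| ≤ R at e1
  rw [abs_le] at e1
  have hla1 : 1 ≤ la v1 := by linarith [e1.1]
  set θ : ℝ := Complex.arg (a (uu N v1)) with hθ
  have hpolar : a (uu N v1) = Complex.exp (la v1 + θ * Complex.I) := by
    rw [Complex.exp_add, ← Complex.ofReal_exp]
    simp only [hla]
    rw [Real.exp_log (norm_pos_iff.2 (tau_ne N v1 a))]
    exact (Complex.norm_mul_exp_arg_mul_I _).symm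
  have hpow : ∀ m n : ℤ, a (uu N (v1 ^ m)) =
      Complex.exp (m * la v1 + (m * θ + n * (2 * Real.pi)) * Complex.I) := by
    intro m n
    rw [uu_zpow, map_zpow₀, hpolar, ← Complex.exp_int_mul]
    have h1 : (m : ℂ) * la v1 + (m * θ + n * (2 * Real.pi)) * Complex.I
        = (m : ℂ) * (la v1 + θ * Complex.I) + n * (2 * Real.pi * Complex.I) := by ring
    rw [h1, Complex.exp_add, Complex.exp_int_mul_two_pi_mul_I, mul_one]
  have hlogc : ∀ m : ℤ, lc (v1 ^ m) = - 2 * (m * la v1) := by
    intro m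
    have h1 := hzero (v1 ^ m)
    have h2 : la (v1 ^ m) = m * la v1 := by
      simp only [hla]
      rw [uu_zpow, map_zpow₀, norm_zpow, Real.log_zpow]
    linarith
  have hD : (ε * la v1) * (2 * Real.pi) - 0 * θ ≠ 0 := by
    rw [zero_mul, sub_zero]
    have := Real.pi_pos
    exact mul_ne_zero (mul_ne_zero hεne (by linarith)) (by linarith)
  have hirr : ∀ m n : ℤ, (m : ℝ) * θ + n * (2 * Real.pi) = 0 → m = 0 ∧ n = 0 := by
    intro m n h
    have h1 := hpow m n
    have h2 : (m : ℂ) * θ + n * (2 * Real.pi) = 0 := by exact_mod_cast h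
    rw [h2, zero_mul, add_zero] at h1
    have h3 : a (uu N (v1 ^ m)) = ((Real.exp (m * la v1) : ℝ) : ℂ) := by
      rw [h1]; push_cast; rfl
    have h4 : a (uu N (v1 ^ m)) = b (uu N (v1 ^ m)) := by
      rw [hconj, h3, Complex.conj_ofReal]
    have h5 : lc (v1 ^ m) = la (v1 ^ m) := by
      simp only [hla, hlc]
      rw [same_of_eq hK hab h4 c a]
    have h6 := hzero (v1 ^ m)
    have h7 : la (v1 ^ m) = m * la v1 := by
      simp only [hla]
      rw [uu_zpow, map_zpow₀, norm_zpow, Real.log_zpow]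
    have h8 : (m : ℝ) * la v1 = 0 := by linarith
    have hm : m = 0 := by
      rcases mul_eq_zero.1 h8 with h | h
      · exact_mod_cast h
      · linarith
    refine ⟨hm, ?_⟩
    rw [hm, Int.cast_zero, zero_mul, zero_add] at h
    rcases mul_eq_zero.1 h with h | h
    · exact_mod_cast h
    · have := Real.pi_pos
      linarith
  obtain ⟨C, hC, hlat⟩ := lattice (ε * la v1) θ 0 (2 * Real.pi) hD hirr t0
  refine ⟨C, hC, fun S0 => ?_⟩
  obtain ⟨m, n, hS, hpos, ht⟩ := hlat S0
  rw [mul_zero, add_zero] at hS hpos ht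
  have hεc : (ε : ℂ) * ε = 1 := by exact_mod_cast hε2
  refine ⟨v1 ^ m, m * (ε * la v1), m * θ + n * (2 * Real.pi), hS, hpos, ht, ?_, ?_, ?_⟩
  · rw [hpow m n]
    congr 1
    push_cast
    linear_combination (-(m : ℂ) * la v1) * hεc
  · rw [hconj, hpow m n, ← Complex.exp_conj]
    congr 1
    simp only [map_add, map_mul, Complex.conj_I, Complex.conj_ofReal, map_intCast, map_ofNat]
    push_cast
    linear_combination (-(m : ℂ) * la v1) * hεc
  · rw [exp_log_norm _ (tau_ne N (v1 ^ m) c) (real_pos hNe _ hc)]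
    congr 1
    change ((lc (v1 ^ m) : ℝ) : ℂ) = _
    rw [hlogc]
    push_cast
    linear_combination (2 * (m : ℂ) * la v1) * hεc

end Pool.Agent.K6.H70.PK
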