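import Mathlib
import Pool.Agent.K6.H70.PK.Cub

/-! # From units to integer points with values near a given number -/

open NumberField H715R2

namespace Pool.Agent.K6.H70.PK

variable {K : Type*} [Field K] [NumberField K]

/-- a row at an integer point -/
lemma row_val (b : Module.Basis (Fin 3) ℚ K) (g : Fin 3 → ℝ) (H : (K →+* ℂ) → ℂ)
    (hH : ∀ j, (g j : ℂ) = ∑ τ : K →+* ℂ, H τ * τ (b j)) (y : Fin 3 → ℤ) :
    ((∑ j, g j * (y j : ℝ) : ℝ) : ℂ) = ∑ τ : K →+* ℂ, H τ * τ (∑ j, (y j : ℚ) • b j) := by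
  push_cast
  simp only [hH, Finset.sum_mul]
  rw [Finset.sum_comm]
  refine Finset.sum_congr rfl fun τ _ => ?_
  rw [map_sum, Finset.mul_sum]
  refine Finset.sum_congr rfl fun j _ => ?_
  rw [Algebra.smul_def, map_mul]
  simp
  ring

/-- conjugates are bounded by the coordinates -/
lemma conj_le (b : Module.Basis (Fin 3) ℚ K) : ∃ M : ℝ, 0 < M ∧ ∀ (y : Fin 3 → ℤ) (τ : K →+* ℂ),
    ‖τ (∑ j, (y j : ℚ) • b j)‖ ≤ M * ‖y‖ := by
  refine ⟨1 + ∑ τ : K →+* ℂ, ∑ j, ‖τ (b j)‖, by positivity, fun y τ => ?_⟩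
  have h1 : ‖τ (∑ j, (y j : ℚ) • b j)‖ ≤ ∑ j, ‖y‖ * ‖τ (b j)‖ := by
    rw [map_sum]
    refine (norm_sum_le _ _).trans (Finset.sum_le_sum fun j _ => ?_)
    rw [Algebra.smul_def, map_mul, norm_mul]
    refine mul_le_mul_of_nonneg_right ?_ (norm_nonneg _)
    have h2 : ‖τ (algebraMap ℚ K (y j : ℚ))‖ = ‖y j‖ := by
      simp [Int.norm_eq_abs]
    rw [h2]
    exact norm_le_pi_norm y j
  refine h1.trans ?_
  rw [← Finset.mul_sum, mul_comm]
  refine mul_le_mul_of_nonneg_right ?_ (norm_nonneg _)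
  have h2 : ∑ j, ‖τ (b j)‖ ≤ ∑ τ : K →+* ℂ, ∑ j, ‖τ (b j)‖ :=
    Finset.single_le_sum (f := fun τ : K →+* ℂ => ∑ j, ‖τ (b j)‖)
      (fun τ _ => Finset.sum_nonneg fun j _ => norm_nonneg _) (Finset.mem_univ τ)
  linarith

/-- coordinates are bounded by the conjugates -/
lemma coord_le (b : Module.Basis (Fin 3) ℚ K) : ∃ M : ℝ, 0 < M ∧ ∀ (y : Fin 3 → ℤ),
    ‖y‖ ≤ M * ∑ τ : K →+* ℂ, ‖τ (∑ j, (y j : ℚ) • b j)‖ := by
  classical
  choose c hc using fun j : Fin 3 => embed_surj b (Pi.single j (1 : ℂ))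
  refine ⟨1 + ∑ j : Fin 3, ∑ τ : K →+* ℂ, ‖c j τ‖, by positivity, fun y => ?_⟩
  set M : ℝ := 1 + ∑ j : Fin 3, ∑ τ : K →+* ℂ, ‖c j τ‖ with hM
  have hM0 : 0 ≤ M := by positivity
  refine (pi_norm_le_iff_of_nonneg (by positivity)).2 fun j => ?_
  have h1 : ((y j : ℤ) : ℂ) = ∑ τ : K →+* ℂ, c j τ * τ (∑ l, (y l : ℚ) • b l) := by
    have h2 : ∀ τ : K →+* ℂ, τ (∑ l, (y l : ℚ) • b l) = ∑ l, (y l : ℂ) * τ (b l) := by
      intro τ
      rw [map_sum]
      refine Finset.sum_congr rfl fun l _ => ?_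
      rw [Algebra.smul_def, map_mul]
      simp
    simp only [h2, Finset.mul_sum]
    rw [Finset.sum_comm]
    have h3 : ∀ l, ∑ τ : K →+* ℂ, c j τ * ((y l : ℂ) * τ (b l)) =
        (y l : ℂ) * (Pi.single j (1 : ℂ) : Fin 3 → ℂ) l := by
      intro l
      rw [hc j l, Finset.mul_sum]
      refine Finset.sum_congr rfl fun τ _ => ?_
      ring
    rw [Finset.sum_congr rfl fun l _ => h3 l, Finset.sum_eq_single j]
    · simp
    · intro l _ hl
      simp [Pi.single_eq_of_ne hl]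
    · intro h
      exact absurd (Finset.mem_univ _) h
  have h4 : ‖y j‖ = ‖((y j : ℤ) : ℂ)‖ := by
    rw [Complex.norm_intCast, Int.norm_eq_abs]
  rw [h4, h1, Finset.mul_sum]
  refine (norm_sum_le _ _).trans (Finset.sum_le_sum fun τ _ => ?_)
  rw [norm_mul]
  refine mul_le_mul_of_nonneg_right ?_ (norm_nonneg _)
  have h5 : ‖c j τ‖ ≤ ∑ τ : K →+* ℂ, ‖c j τ‖ :=
    Finset.single_le_sum (f := fun τ => ‖c j τ‖) (fun τ _ => norm_nonneg _) (Finset.mem_univ τ)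
  have h6 : ∑ τ : K →+* ℂ, ‖c j τ‖ ≤ ∑ j : Fin 3, ∑ τ : K →+* ℂ, ‖c j τ‖ :=
    Finset.single_le_sum (f := fun j => ∑ τ : K →+* ℂ, ‖c j τ‖)
      (fun j _ => Finset.sum_nonneg fun τ _ => norm_nonneg _) (Finset.mem_univ j)
  linarith

/-- the final step: values near `c0` -/
theorem final_step (bb : Module.Basis (Fin 3) ℚ K) {N : ℕ}
    (act : ∀ u : (𝓞 K)ˣ, ∀ x : Fin 3 → ℤ, ∃ y : Fin 3 → ℤ,
      ∑ j, (y j : ℚ) • bb j = (((u ^ N : (𝓞 K)ˣ) : 𝓞 K) : K) * ∑ j, (x j : ℚ) • bb j)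
    (g : Matrix (Fin 3) (Fin 3) ℝ) (H : Fin 3 → (K →+* ℂ) → ℂ)
    (hH : ∀ i j, (g i j : ℂ) = ∑ τ : K →+* ℂ, H i τ * τ (bb j))
    {a b c : K →+* ℂ} (hab : a ≠ b) (hac : a ≠ c) (hbc : b ≠ c)
    (hall : ∀ τ : K →+* ℂ, τ = a ∨ τ = b ∨ τ = c)
    {ε : ℝ} (hε : ε = 1 ∨ ε = -1) {κ : ℂ} (hA : Approx N a b c ε κ)
    (x : Fin 3 → ℤ) (hx : ∑ j, (x j : ℚ) • bb j ≠ 0)
    (Φ : ℝ × ℝ → ℂ) (hΦ : ContDiff ℝ 1 Φ) (c0 t0 : ℝ) (h0 : Φ (t0, 0) = c0)
    (hF : ∀ (v : (𝓞 K)ˣ) (s t : ℝ), a (uu N v) = Complex.exp (ε * s + κ * t) →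
      b (uu N v) = Complex.exp (ε * s - κ * t) → c (uu N v) = Complex.exp (-2 * ε * s) →
      ∏ i, ∑ τ : K →+* ℂ, H i τ * τ (uu N v * ∑ j, (x j : ℚ) • bb j) = Φ (t, Real.exp (-3 * s))) :
    ∃ C : ℝ, ∀ R : ℝ, ∃ y : Fin 3 → ℤ, R ≤ ‖y‖ ∧
      |∏ i, ∑ j, g i j * (y j : ℝ) - c0| * Real.log ‖y‖ ≤ C := by
  classical
  set ξ : K := ∑ j, (x j : ℚ) • bb j with hξ
  obtain ⟨C, hC, hA⟩ := hA t0
  obtain ⟨L, V, hV, hL⟩ := hΦ.locallyLipschitz (t0, (0 : ℝ))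
  obtain ⟨δ, hδ, hball⟩ := Metric.mem_nhds_iff.1 hV
  obtain ⟨M1, hM1, hconj⟩ := conj_le bb
  obtain ⟨M2, hM2, hcoord⟩ := coord_le bb
  have huniv : (Finset.univ : Finset (K →+* ℂ)) = {a, b, c} := by
    ext τ
    simp [hall τ]
  have hsum : ∀ f : (K →+* ℂ) → ℝ, ∑ τ, f τ = f a + f b + f c := by
    intro f
    rw [huniv, Finset.sum_insert (by simp [hab, hac]), Finset.sum_insert (by simp [hbc]),
      Finset.sum_singleton]
    ring
  have hne : ∀ τ : K →+* ℂ, 0 < ‖τ ξ‖ := fun τ => norm_pos_iff.2 ((map_ne_zero τ).2 hx)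
  -- bound of `‖exp (κ t)‖` for `t` near `t0`
  set E : ℝ := Real.exp (‖κ‖ * (|t0| + 1)) with hE
  have hE1 : 1 ≤ E := Real.one_le_exp (by positivity)
  set M3 : ℝ := M2 * (E * (‖a ξ‖ + ‖b ξ‖ + ‖c ξ‖)) with hM3
  have hM3pos : 0 < M3 := by
    have := hne a; have := hne b; have := hne c
    positivity
  refine ⟨(L : ℝ) * (C + 1) * (2 + |Real.log M3|), fun R => ?_⟩
  -- how large `s` has to be
  set S0 : ℝ := 1 + C + 2 * (C + 1) / δ + (|R| + 1) * M1 * (1 / ‖a ξ‖ + 1 / ‖b ξ‖ + 1 / ‖c ξ‖ +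
    (|R| + 1) * M1 * (1 / (‖a ξ‖ * ‖b ξ‖))) with hS0
  have ha0 := hne a
  have hb0 := hne b
  have hc0 := hne c
  obtain ⟨v, s, t, hs, hspos, ht, hva, hvb, hvc⟩ := hA S0
  have hδpos : 0 < 2 * (C + 1) / δ := by positivity
  have hRpos : 0 < (|R| + 1) * M1 := by positivity
  have hs1 : 1 ≤ s := by
    refine le_trans ?_ hs
    rw [hS0]
    have : 0 < (|R| + 1) * M1 * (1 / ‖a ξ‖ + 1 / ‖b ξ‖ + 1 / ‖c ξ‖ +
      (|R| + 1) * M1 * (1 / (‖a ξ‖ * ‖b ξ‖))) := by positivity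
    linarith
  have hsC : C ≤ s := by
    refine le_trans ?_ hs
    rw [hS0]
    have : 0 < (|R| + 1) * M1 * (1 / ‖a ξ‖ + 1 / ‖b ξ‖ + 1 / ‖c ξ‖ +
      (|R| + 1) * M1 * (1 / (‖a ξ‖ * ‖b ξ‖))) := by positivity
    linarith
  have hsδ : 2 * (C + 1) / δ < s := by
    refine lt_of_lt_of_le ?_ hs
    rw [hS0]
    have : 0 < (|R| + 1) * M1 * (1 / ‖a ξ‖ + 1 / ‖b ξ‖ + 1 / ‖c ξ‖ +
      (|R| + 1) * M1 * (1 / (‖a ξ‖ * ‖b ξ‖))) := by positivity
    linarith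
  have hsR : (|R| + 1) * M1 * (1 / ‖c ξ‖) ≤ s ∧
      ((|R| + 1) * M1) * ((|R| + 1) * M1) * (1 / (‖a ξ‖ * ‖b ξ‖)) ≤ s := by
    have e : (|R| + 1) * M1 * (1 / ‖a ξ‖ + 1 / ‖b ξ‖ + 1 / ‖c ξ‖ +
      (|R| + 1) * M1 * (1 / (‖a ξ‖ * ‖b ξ‖))) = (|R| + 1) * M1 * (1 / ‖a ξ‖) +
      (|R| + 1) * M1 * (1 / ‖b ξ‖) + (|R| + 1) * M1 * (1 / ‖c ξ‖) +
      ((|R| + 1) * M1) * ((|R| + 1) * M1) * (1 / (‖a ξ‖ * ‖b ξ‖)) := by ring
    have p1 : 0 < (|R| + 1) * M1 * (1 / ‖a ξ‖) := by positivity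
    have p2 : 0 < (|R| + 1) * M1 * (1 / ‖b ξ‖) := by positivity
    have p3 : 0 < (|R| + 1) * M1 * (1 / ‖c ξ‖) := by positivity
    have p4 : 0 < ((|R| + 1) * M1) * ((|R| + 1) * M1) * (1 / (‖a ξ‖ * ‖b ξ‖)) := by positivity
    rw [hS0, e] at hs
    constructor <;> linarith
  have hw : Real.exp (-3 * s) ≤ 1 / s := by
    have h1 : s ≤ Real.exp (3 * s) := by
      have := Real.add_one_le_exp (3 * s)
      linarith
    rw [show -3 * s = -(3 * s) by ring, Real.exp_neg, ← one_div]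
    exact one_div_le_one_div_of_le hspos h1
  have hwpos := Real.exp_pos (-3 * s)
  have ht1 : |t - t0| ≤ 1 := ht.trans (by rw [div_le_one hspos]; exact hsC)
  -- the point `y`
  obtain ⟨y, hy⟩ := act v x
  have hyξ : ∑ j, (y j : ℚ) • bb j = uu N v * ξ := hy
  have hFy : ((∏ i, ∑ j, g i j * (y j : ℝ) : ℝ) : ℂ) = Φ (t, Real.exp (-3 * s)) := by
    rw [← hF v s t hva hvb hvc, ← hyξ]
    push_cast
    refine Finset.prod_congr rfl fun i _ => ?_
    rw [← row_val bb (g i) (H i) (hH i) y]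
    push_cast
    rfl
  -- the value
  have hmem1 : (t, Real.exp (-3 * s)) ∈ V := by
    apply hball
    rw [Metric.mem_ball, Prod.dist_eq, max_lt_iff]
    have h1 : C / s < δ := by
      rw [div_lt_iff₀ hspos]
      rw [div_lt_iff₀ hδ] at hsδ
      linarith
    have h2 : 1 / s < δ := by
      rw [div_lt_iff₀ hspos]
      rw [div_lt_iff₀ hδ] at hsδ
      linarith
    constructor
    · rw [Real.dist_eq]
      exact lt_of_le_of_lt ht h1
    · rw [Real.dist_eq, sub_zero, abs_of_pos hwpos]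
      exact lt_of_le_of_lt hw h2
  have hmem0 : (t0, (0 : ℝ)) ∈ V := mem_of_mem_nhds hV
  have hval : |∏ i, ∑ j, g i j * (y j : ℝ) - c0| ≤ L * ((C + 1) / s) := by
    have h1 := hL.dist_le_mul _ hmem1 _ hmem0
    rw [h0, ← hFy, Complex.dist_eq, ← Complex.ofReal_sub, Complex.norm_real, Real.norm_eq_abs] at h1
    refine h1.trans (mul_le_mul_of_nonneg_left ?_ L.2)
    rw [Prod.dist_eq]
    refine max_le ?_ ?_
    · rw [Real.dist_eq]
      refine ht.trans ?_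
      exact div_le_div_of_nonneg_right (by linarith) hspos.le
    · rw [Real.dist_eq, sub_zero, abs_of_pos hwpos]
      refine hw.trans ?_
      exact div_le_div_of_nonneg_right (by linarith) hspos.le
  -- norms of the exponentials
  have hκ : ∀ σ : ℝ, |σ| ≤ |t0| + 1 → ‖Complex.exp (κ * σ)‖ ≤ E := by
    intro σ hσ
    rw [Complex.norm_exp, hE]
    apply Real.exp_le_exp.2
    calc (κ * σ).re ≤ ‖κ * σ‖ := Complex.re_le_norm _
      _ = ‖κ‖ * |σ| := by rw [norm_mul, Complex.norm_real, Real.norm_eq_abs]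
      _ ≤ _ := mul_le_mul_of_nonneg_left hσ (norm_nonneg _)
  have htabs : |t| ≤ |t0| + 1 := by
    have := abs_sub_abs_le_abs_sub t t0
    linarith
  have hεs : ∀ m : ℝ, ‖Complex.exp ((m * s : ℝ) : ℂ)‖ = Real.exp (m * s) := by
    intro m
    rw [← Complex.ofReal_exp, Complex.norm_real, Real.norm_of_nonneg (Real.exp_pos _).le]
  have hεabs : |ε| = 1 := by rcases hε with h | h <;> rw [h] <;> norm_num
  have hεle : ε * s ≤ s := by
    have : ε ≤ 1 := (le_abs_self ε).trans hεabs.le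
    nlinarith
  have hεle2 : -2 * ε * s ≤ 2 * s := by
    have : -ε ≤ 1 := (neg_le_abs ε).trans hεabs.le
    nlinarith
  have hna : ‖a (uu N v)‖ ≤ Real.exp (2 * s) * E := by
    rw [hva, Complex.exp_add, norm_mul]
    refine mul_le_mul ?_ (hκ t htabs) (norm_nonneg _) (Real.exp_pos _).le
    have := hεs ε
    rw [Complex.ofReal_mul] at this
    rw [this]
    exact Real.exp_le_exp.2 (by linarith)
  have hnb : ‖b (uu N v)‖ ≤ Real.exp (2 * s) * E := by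
    rw [hvb, sub_eq_add_neg, Complex.exp_add, norm_mul]
    refine mul_le_mul ?_ ?_ (norm_nonneg _) (Real.exp_pos _).le
    · have := hεs ε
      rw [Complex.ofReal_mul] at this
      rw [this]
      exact Real.exp_le_exp.2 (by linarith)
    · have := hκ (-t) (by rw [abs_neg]; exact htabs)
      rw [Complex.ofReal_neg, mul_neg] at this
      exact this
  have hnc : ‖c (uu N v)‖ = Real.exp (-2 * ε * s) := by
    rw [hvc]
    have := hεs (-2 * ε)
    push_cast at this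
    exact this
  have hnc' : ‖c (uu N v)‖ ≤ Real.exp (2 * s) * E := by
    rw [hnc]
    calc Real.exp (-2 * ε * s) ≤ Real.exp (2 * s) := Real.exp_le_exp.2 hεle2
      _ ≤ Real.exp (2 * s) * E := le_mul_of_one_le_right (Real.exp_pos _).le hE1
  -- upper bound for `‖y‖`
  have hyup : ‖y‖ ≤ M3 * Real.exp (2 * s) := by
    refine (hcoord y).trans ?_
    rw [hyξ, hsum, hM3]
    simp only [map_mul, norm_mul]
    have e1 := mul_le_mul_of_nonneg_right hna ha0.le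
    have e2 := mul_le_mul_of_nonneg_right hnb hb0.le
    have e3 := mul_le_mul_of_nonneg_right hnc' hc0.le
    calc M2 * (‖a (uu N v)‖ * ‖a ξ‖ + ‖b (uu N v)‖ * ‖b ξ‖ + ‖c (uu N v)‖ * ‖c ξ‖)
        ≤ M2 * (Real.exp (2 * s) * E * ‖a ξ‖ + Real.exp (2 * s) * E * ‖b ξ‖ +
          Real.exp (2 * s) * E * ‖c ξ‖) := mul_le_mul_of_nonneg_left (by linarith) hM2.le
      _ = _ := by ring
  -- lower bound for `‖y‖`
  have hylo : |R| + 1 ≤ ‖y‖ := by
    have hse : s ≤ Real.exp (2 * s) := by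
      have := Real.add_one_le_exp (2 * s)
      linarith
    rcases hε with hε1 | hε1
    · -- product of the conjugates at `a`, `b`
      have h1 : ‖a (uu N v)‖ * ‖b (uu N v)‖ = Real.exp (2 * s) := by
        rw [hva, hvb, ← norm_mul, ← Complex.exp_add, hε1]
        have h2 : ((1 : ℝ) : ℂ) * (s : ℂ) + κ * t + (((1 : ℝ) : ℂ) * s - κ * t)
            = ((2 * s : ℝ) : ℂ) := by push_cast; ring
        rw [h2, hεs]
      have h3 : (‖a (uu N v)‖ * ‖a ξ‖) * (‖b (uu N v)‖ * ‖b ξ‖) ≤ (M1 * ‖y‖) * (M1 * ‖y‖) := by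
        refine mul_le_mul ?_ ?_ (by positivity) (by positivity)
        · have := hconj y a
          rw [hyξ, map_mul, norm_mul] at this
          exact this
        · have := hconj y b
          rw [hyξ, map_mul, norm_mul] at this
          exact this
      have h4 : Real.exp (2 * s) * (‖a ξ‖ * ‖b ξ‖) ≤ (M1 * ‖y‖) * (M1 * ‖y‖) := by
        calc Real.exp (2 * s) * (‖a ξ‖ * ‖b ξ‖)
            = (‖a (uu N v)‖ * ‖a ξ‖) * (‖b (uu N v)‖ * ‖b ξ‖) := by rw [← h1]; ring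
          _ ≤ _ := h3
      have h5 : ((|R| + 1) * M1) * ((|R| + 1) * M1) ≤ s * (‖a ξ‖ * ‖b ξ‖) := by
        have h6 := hsR.2
        rw [mul_one_div, div_le_iff₀ (by positivity)] at h6
        exact h6
      have h7 : ((|R| + 1) * M1) * ((|R| + 1) * M1) ≤ (M1 * ‖y‖) * (M1 * ‖y‖) := by
        refine h5.trans (le_trans ?_ h4)
        exact mul_le_mul_of_nonneg_right hse (by positivity)
      have h8 : (|R| + 1) * M1 ≤ M1 * ‖y‖ := by
        by_contra hcon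
        push Not at hcon
        have : (M1 * ‖y‖) * (M1 * ‖y‖) < ((|R| + 1) * M1) * ((|R| + 1) * M1) :=
          mul_lt_mul'' hcon hcon (by positivity) (by positivity)
        linarith
      rw [mul_comm (|R| + 1) M1] at h8
      exact le_of_mul_le_mul_left h8 hM1
    · have h1 : ‖c (uu N v)‖ = Real.exp (2 * s) := by
        rw [hnc, hε1]
        congr 1
        ring
      have h2 := hconj y c
      rw [hyξ, map_mul, norm_mul, h1] at h2
      have h3 := hsR.1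
      rw [mul_one_div, div_le_iff₀ hc0] at h3
      have h4 : (|R| + 1) * M1 ≤ M1 * ‖y‖ := by
        refine h3.trans (le_trans ?_ h2)
        exact mul_le_mul_of_nonneg_right hse hc0.le
      rw [mul_comm (|R| + 1) M1] at h4
      exact le_of_mul_le_mul_left h4 hM1
  have hy1 : 1 ≤ ‖y‖ := by linarith [abs_nonneg R]
  refine ⟨y, by linarith [le_abs_self R], ?_⟩
  have hlog : Real.log ‖y‖ ≤ (2 + |Real.log M3|) * s := by
    have h1 : Real.log ‖y‖ ≤ Real.log (M3 * Real.exp (2 * s)) :=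
      Real.log_le_log (by linarith) hyup
    rw [Real.log_mul hM3pos.ne' (Real.exp_pos _).ne', Real.log_exp] at h1
    have h2 : Real.log M3 ≤ |Real.log M3| * s :=
      (le_abs_self _).trans (le_mul_of_one_le_right (abs_nonneg _) hs1)
    linarith
  calc |∏ i, ∑ j, g i j * (y j : ℝ) - c0| * Real.log ‖y‖
      ≤ (L * ((C + 1) / s)) * ((2 + |Real.log M3|) * s) :=
        mul_le_mul hval hlog (Real.log_nonneg hy1) (by positivity)
    _ = (L : ℝ) * (C + 1) * (2 + |Real.log M3|) := by field_simp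

end Pool.Agent.K6.H70.PK
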