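import Mathlib
import Pool.Agent.K6.H70.PK.Step
import Pool.Agent.K6.H70.PK.Cplx

/-! # The leading function of a configuration takes all real values -/

open NumberField H715R2 Filter Topology

namespace Pool.Agent.K6.H70.PK

/-- a continuous real function with a zero at which the derivative does not vanish takes, after
multiplication by the cube of a suitable positive integer, any given value -/
lemma cube_range (f : ℝ → ℝ) (hf : Continuous f) (t1 d : ℝ) (h0 : f t1 = 0)
    (hd : HasDerivAt f d t1) (hdne : d ≠ 0) (c0 : ℝ) :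
    ∃ (n : ℕ) (t0 : ℝ), 0 < n ∧ (n : ℝ) ^ 3 * f t0 = c0 := by
  obtain ⟨tp, htp⟩ : ∃ t, 0 < f t := by
    by_contra hcon
    push Not at hcon
    have hmax : IsLocalMax f t1 := Eventually.of_forall fun t => by
      show f t ≤ f t1
      rw [h0]
      exact hcon t
    exact hdne (hmax.hasDerivAt_eq_zero hd)
  obtain ⟨tm, htm⟩ : ∃ t, f t < 0 := by
    by_contra hcon
    push Not at hcon
    have hmin : IsLocalMin f t1 := Eventually.of_forall fun t => by
      show f t1 ≤ f t
      rw [h0]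
      exact hcon t
    exact hdne (hmin.hasDerivAt_eq_zero hd)
  obtain ⟨n, hn⟩ := exists_nat_ge (1 + |c0| / f tp + |c0| / (-f tm))
  have hp : 0 ≤ |c0| / f tp := by positivity
  have hm : 0 ≤ |c0| / (-f tm) := div_nonneg (abs_nonneg _) (by linarith)
  have hn1 : (1 : ℝ) ≤ n := by linarith
  have hn0 : 0 < n := by exact_mod_cast lt_of_lt_of_le one_pos hn1
  have hn3 : (n : ℝ) ≤ (n : ℝ) ^ 3 := by nlinarith [mul_nonneg (sub_nonneg.2 hn1) (sub_nonneg.2 hn1)]
  have h1 : |c0| ≤ (n : ℝ) ^ 3 * f tp := by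
    have : |c0| / f tp ≤ (n : ℝ) ^ 3 := by linarith
    rwa [div_le_iff₀ htp] at this
  have h2 : |c0| ≤ (n : ℝ) ^ 3 * (-f tm) := by
    have : |c0| / (-f tm) ≤ (n : ℝ) ^ 3 := by linarith
    rwa [div_le_iff₀ (by linarith)] at this
  have hcont : Continuous fun t => (n : ℝ) ^ 3 * f t := continuous_const.mul hf
  obtain ⟨t0, ht0⟩ := mem_range_of_exists_le_of_exists_ge (c := c0) hcont
    ⟨tm, by linarith [neg_abs_le c0]⟩ ⟨tp, by linarith [le_abs_self c0]⟩
  exact ⟨n, t0, hn0, ht0⟩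

/-- one factor of the leading function -/
noncomputable def alf (κ p q : ℂ) (t : ℝ) : ℂ := p * Complex.exp (κ * t) + q * Complex.exp (-(κ * t))

lemma alf_smul (κ p q n : ℂ) (t : ℝ) : alf κ (n * p) (n * q) t = n * alf κ p q t := by
  unfold alf; ring

lemma contDiff_alf (κ p q : ℂ) : ContDiff ℝ 1 (alf κ p q) := by
  have h : ContDiff ℝ 1 (fun t : ℝ => (t : ℂ)) := Complex.ofRealCLM.contDiff
  have h1 : ContDiff ℝ 1 (fun t : ℝ => Complex.exp (κ * (t : ℂ))) :=
    Complex.contDiff_exp.comp (contDiff_const.mul h)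
  have h2 : ContDiff ℝ 1 (fun t : ℝ => Complex.exp (-(κ * (t : ℂ)))) :=
    Complex.contDiff_exp.comp (contDiff_const.mul h).neg
  exact (contDiff_const.mul h1).add (contDiff_const.mul h2)

lemma hasDerivAt_alf (κ p q : ℂ) (t : ℝ) : HasDerivAt (alf κ p q)
    (κ * (p * Complex.exp (κ * t) - q * Complex.exp (-(κ * t)))) t := by
  have h1 : HasDerivAt (fun t : ℝ => κ * (t : ℂ)) κ t := by
    simpa using (Complex.ofRealCLM.hasDerivAt (x := t)).const_mul κ
  have h2 := (h1.cexp).const_mul p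
  have h3 := (h1.neg.cexp).const_mul q
  have h4 := h2.add h3
  refine h4.congr_deriv ?_
  simp only [Pi.neg_apply]
  ring

/-- realness of the values, in the two cases -/
lemma alf_real {κ p q : ℂ} (h : (κ = 1 / 2 ∧ (starRingEnd ℂ) p = p ∧ (starRingEnd ℂ) q = q) ∨
    (κ = Complex.I ∧ q = (starRingEnd ℂ) p)) (t : ℝ) :
    (starRingEnd ℂ) (alf κ p q t) = alf κ p q t := by
  unfold alf
  rcases h with ⟨hκ, hp, hq⟩ | ⟨hκ, hq⟩
  · have h1 : (starRingEnd ℂ) κ = κ := by
      have h2 : (1 / 2 : ℂ) = ((1 / 2 : ℝ) : ℂ) := by push_cast; rfl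
      rw [hκ, h2, Complex.conj_ofReal]
    simp only [map_add, map_mul, hp, hq, ← Complex.exp_conj, map_neg, h1, Complex.conj_ofReal]
  · have h1 : (starRingEnd ℂ) κ = -κ := by rw [hκ]; simp
    rw [hq]
    simp only [map_add, map_mul, ← Complex.exp_conj, map_neg, h1, Complex.conj_ofReal,
      Complex.conj_conj]
    rw [neg_mul, neg_neg]
    ring

/-- existence of the zero -/
lemma exists_zero {κ p q : ℂ}
    (h : (κ = 1 / 2 ∧ (starRingEnd ℂ) p = p ∧ (starRingEnd ℂ) q = q ∧ (p * q).re < 0) ∨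
    (κ = Complex.I ∧ q = (starRingEnd ℂ) p)) : ∃ t : ℝ, alf κ p q t = 0 := by
  rcases h with ⟨hκ, hp, hq, hpq⟩ | ⟨hκ, hq⟩
  · obtain ⟨P, hP⟩ := Complex.conj_eq_iff_real.1 hp
    obtain ⟨Q, hQ⟩ := Complex.conj_eq_iff_real.1 hq
    rw [hP, hQ, ← Complex.ofReal_mul, Complex.ofReal_re] at hpq
    have hP0 : P ≠ 0 := by
      intro h0
      rw [h0, zero_mul] at hpq
      exact lt_irrefl _ hpq
    have hr : 0 < -Q / P := by
      have h2 : -Q / P = -(P * Q) / (P * P) := by field_simp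
      rw [h2]
      exact div_pos (by linarith) (mul_self_pos.2 hP0)
    refine ⟨Real.log (-Q / P), ?_⟩
    have h3 : Complex.exp ((1 / 2 : ℂ) * ((Real.log (-Q / P) : ℝ) : ℂ)) =
        ((Real.exp (Real.log (-Q / P) / 2) : ℝ) : ℂ) := by
      rw [Complex.ofReal_exp]; congr 1; push_cast; ring
    have h4 : Complex.exp (-((1 / 2 : ℂ) * ((Real.log (-Q / P) : ℝ) : ℂ))) =
        ((Real.exp (-(Real.log (-Q / P) / 2)) : ℝ) : ℂ) := by
      rw [Complex.ofReal_exp]; congr 1; push_cast; ring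
    unfold alf
    rw [hκ, h3, h4, hP, hQ]
    norm_cast
    have h5 : Real.exp (Real.log (-Q / P) / 2) =
        (-Q / P) * Real.exp (-(Real.log (-Q / P) / 2)) := by
      nth_rewrite 2 [← Real.exp_log hr]
      rw [← Real.exp_add]
      congr 1
      ring
    rw [h5]
    field_simp
    ring
  · refine ⟨Real.pi / 2 - Complex.arg p, ?_⟩
    unfold alf
    rw [hκ, hq]
    have h1 : p = ‖p‖ * Complex.exp (Complex.arg p * Complex.I) :=
      (Complex.norm_mul_exp_arg_mul_I p).symm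
    have h2 : (starRingEnd ℂ) p = ‖p‖ * Complex.exp (-(Complex.arg p * Complex.I)) := by
      conv_lhs => rw [h1]
      rw [map_mul, Complex.conj_ofReal, ← Complex.exp_conj]
      simp
    rw [h2]
    conv_lhs =>
      enter [1, 1]
      rw [h1]
    rw [mul_assoc, mul_assoc, ← Complex.exp_add, ← Complex.exp_add, ← mul_add]
    push_cast
    have e1 : (Complex.arg p : ℂ) * Complex.I + Complex.I * (Real.pi / 2 - Complex.arg p)
        = (Real.pi / 2 : ℂ) * Complex.I := by ring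
    have e2 : -((Complex.arg p : ℂ) * Complex.I) + -(Complex.I * (Real.pi / 2 - Complex.arg p))
        = -((Real.pi / 2 : ℂ) * Complex.I) := by ring
    rw [e1, e2, Complex.exp_neg, Complex.exp_pi_div_two_mul_I]
    simp

/-- the leading function `A α_1 α_2` takes the value `c0`, after scaling -/
theorem leading {κ A p1 q1 p2 q2 : ℂ} (hA : A ≠ 0) (hAr : (starRingEnd ℂ) A = A) (hp1 : p1 ≠ 0)
    (hdet : p1 * q2 - q1 * p2 ≠ 0)
    (h1 : (κ = 1 / 2 ∧ (starRingEnd ℂ) p1 = p1 ∧ (starRingEnd ℂ) q1 = q1 ∧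
        (starRingEnd ℂ) p2 = p2 ∧ (starRingEnd ℂ) q2 = q2 ∧ (p1 * q1).re < 0) ∨
      (κ = Complex.I ∧ q1 = (starRingEnd ℂ) p1 ∧ q2 = (starRingEnd ℂ) p2)) (c0 : ℝ) :
    ∃ (n : ℕ) (t0 : ℝ), 0 < n ∧
      (n : ℂ) ^ 3 * (A * alf κ p1 q1 t0 * alf κ p2 q2 t0) = c0 := by
  have hr1 : ∀ t, (starRingEnd ℂ) (alf κ p1 q1 t) = alf κ p1 q1 t := fun t => alf_real (by tauto) t
  have hr2 : ∀ t, (starRingEnd ℂ) (alf κ p2 q2 t) = alf κ p2 q2 t := fun t => alf_real (by tauto) t
  have hκ0 : κ ≠ 0 := by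
    rcases h1 with h | h
    · rw [h.1]; norm_num
    · rw [h.1]; exact Complex.I_ne_zero
  obtain ⟨t1, ht1⟩ := exists_zero (κ := κ) (p := p1) (q := q1) (by tauto)
  set G : ℝ → ℂ := fun t => A * alf κ p1 q1 t * alf κ p2 q2 t with hG
  have hGr : ∀ t, (starRingEnd ℂ) (G t) = G t := by
    intro t
    simp only [hG, map_mul, hAr, hr1, hr2]
  have hGre : ∀ t, (((G t).re : ℝ) : ℂ) = G t := fun t => Complex.conj_eq_iff_re.1 (hGr t)
  have hGc : Continuous G := by
    have e1 := (contDiff_alf κ p1 q1).continuous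
    have e2 := (contDiff_alf κ p2 q2).continuous
    exact (continuous_const.mul e1).mul e2
  -- the derivative
  have hder : HasDerivAt G ((A * (κ * (p1 * Complex.exp (κ * t1) - q1 * Complex.exp (-(κ * t1))))) *
      alf κ p2 q2 t1 + (A * alf κ p1 q1 t1) *
      (κ * (p2 * Complex.exp (κ * t1) - q2 * Complex.exp (-(κ * t1))))) t1 :=
    ((hasDerivAt_alf κ p1 q1 t1).const_mul A).mul (hasDerivAt_alf κ p2 q2 t1)
  rw [ht1, mul_zero, zero_mul, add_zero] at hder
  have hz : q1 * Complex.exp (-(κ * t1)) = -(p1 * Complex.exp (κ * t1)) := by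
    unfold alf at ht1
    linear_combination ht1
  set dd : ℂ := (A * (κ * (p1 * Complex.exp (κ * t1) - q1 * Complex.exp (-(κ * t1))))) *
    alf κ p2 q2 t1 with hdd
  have hE : Complex.exp (κ * t1) ≠ 0 := Complex.exp_ne_zero _
  have hE' : Complex.exp (-(κ * t1)) ≠ 0 := Complex.exp_ne_zero _
  have h2ne : alf κ p2 q2 t1 ≠ 0 := by
    intro h0
    unfold alf at h0
    have h0' : p1 * Complex.exp (κ * t1) + q1 * Complex.exp (-(κ * t1)) = 0 := by
      linear_combination hz
    have e1 : (p1 * q2 - q1 * p2) * Complex.exp (-(κ * t1)) = 0 := by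
      linear_combination p1 * h0 - p2 * h0'
    rcases mul_eq_zero.1 e1 with e | e
    · exact hdet e
    · exact hE' e
  have hddne : dd ≠ 0 := by
    rw [hdd]
    refine mul_ne_zero (mul_ne_zero hA (mul_ne_zero hκ0 ?_)) h2ne
    rw [hz, sub_neg_eq_add, ← two_mul]
    exact mul_ne_zero two_ne_zero (mul_ne_zero hp1 hE)
  have hdre : HasDerivAt (fun t => (G t).re) dd.re t1 := by
    have := Complex.reCLM.hasFDerivAt.comp_hasDerivAt t1 hder
    exact this
  have hdim : dd.im = 0 := by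
    have h3 : HasDerivAt (fun t => (G t).im) dd.im t1 := by
      have := Complex.imCLM.hasFDerivAt.comp_hasDerivAt t1 hder
      exact this
    have h4 : (fun t => (G t).im) = fun _ => 0 := by
      funext t
      exact Complex.conj_eq_iff_im.1 (hGr t)
    rw [h4] at h3
    exact h3.unique (hasDerivAt_const t1 (0 : ℝ)) 
  have hdrene : dd.re ≠ 0 := by
    intro h0
    exact hddne (Complex.ext h0 hdim)
  have hG0 : (G t1).re = 0 := by
    have : G t1 = 0 := by simp only [hG, ht1, mul_zero, zero_mul]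
    rw [this, Complex.zero_re]
  obtain ⟨n, t0, hn, h⟩ := cube_range (fun t => (G t).re) (Complex.continuous_re.comp hGc) t1 dd.re
    hG0 hdre hdrene c0
  refine ⟨n, t0, hn, ?_⟩
  change (n : ℂ) ^ 3 * G t0 = c0
  rw [← hGre t0, ← h]
  push_cast
  rfl

end Pool.Agent.K6.H70.PK
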