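import Mathlib
import Pool.Agent.K6.H70.PK.Conf

/-! # Configurations of coefficients for which the values are dense with a rate -/

open NumberField H715R2 Filter Topology

namespace Pool.Agent.K6.H70.PK

variable {K : Type*} [Field K] [NumberField K]

lemma comb {H : Fin 3 → (K →+* ℂ) → ℂ} (hli : LinearIndependent ℂ H) {k i j : Fin 3}
    (hki : k ≠ i) (hkj : k ≠ j) (hij : i ≠ j) (p q s : ℂ)
    (h : ∀ τ, p * H k τ + q * H i τ + s * H j τ = 0) : p = 0 ∧ q = 0 ∧ s = 0 := by
  classical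
  have huniv : (Finset.univ : Finset (Fin 3)) = {k, i, j} := by
    symm
    apply Finset.eq_univ_of_card
    rw [Finset.card_insert_of_notMem (by simp [hki, hkj]), Finset.card_insert_of_notMem (by simp [hij]),
      Finset.card_singleton, Fintype.card_fin]
  rw [Fintype.linearIndependent_iff] at hli
  have h1 := hli (fun r => if r = k then p else if r = i then q else s) (by
    rw [huniv, Finset.sum_insert (by simp [hki, hkj]), Finset.sum_insert (by simp [hij]),
      Finset.sum_singleton]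
    funext τ
    simp only [if_true, hki.symm, if_false, hkj.symm, hij.symm, Pi.add_apply, Pi.smul_apply,
      smul_eq_mul, Pi.zero_apply]
    rw [← add_assoc]
    exact h τ)
  refine ⟨?_, ?_, ?_⟩
  · simpa using h1 k
  · simpa [hki.symm] using h1 i
  · simpa [hkj.symm, hij.symm] using h1 j

lemma prod_rows {M : Type*} [CommMonoid M] {k i j : Fin 3}
    (hki : k ≠ i) (hkj : k ≠ j) (hij : i ≠ j) (f : Fin 3 → M) : ∏ r, f r = f k * f i * f j := by
  classical
  have huniv : (Finset.univ : Finset (Fin 3)) = {k, i, j} := by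
    symm
    apply Finset.eq_univ_of_card
    rw [Finset.card_insert_of_notMem (by simp [hki, hkj]), Finset.card_insert_of_notMem (by simp [hij]),
      Finset.card_singleton, Fintype.card_fin]
  rw [huniv, Finset.prod_insert (by simp [hki, hkj]), Finset.prod_insert (by simp [hij]),
    Finset.prod_singleton, mul_assoc]

lemma sum_embs {a b c : K →+* ℂ} (hab : a ≠ b) (hac : a ≠ c) (hbc : b ≠ c)
    (hall : ∀ τ : K →+* ℂ, τ = a ∨ τ = b ∨ τ = c) (f : (K →+* ℂ) → ℂ) :
    ∑ τ, f τ = f a + f b + f c := by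
  classical
  have huniv : (Finset.univ : Finset (K →+* ℂ)) = {a, b, c} := by
    ext τ
    simp [hall τ]
  rw [huniv, Finset.sum_insert (by simp [hab, hac]), Finset.sum_insert (by simp [hbc]),
    Finset.sum_singleton]
  ring

/-- independence of the rows gives two nonvanishing minors -/
lemma minors {H : Fin 3 → (K →+* ℂ) → ℂ} (hli : LinearIndependent ℂ H) {k i j : Fin 3}
    (hki : k ≠ i) (hkj : k ≠ j) (hij : i ≠ j) {a b c : K →+* ℂ}
    (hall : ∀ τ : K →+* ℂ, τ = a ∨ τ = b ∨ τ = c) (hia : H i a ≠ 0)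
    (htype : (H k a = 0 ∧ H k b = 0) ∨ (H i c = 0 ∧ H j c = 0)) :
    H k c ≠ 0 ∧ H i a * H j b - H i b * H j a ≠ 0 := by
  rcases htype with ⟨h1, h2⟩ | ⟨h1, h2⟩
  · have hkc : H k c ≠ 0 := by
      intro h0
      have h3 := (comb hli hki hkj hij 1 0 0 (by
        intro τ
        rcases hall τ with h | h | h <;> rw [h]
        · rw [h1]; ring
        · rw [h2]; ring
        · rw [h0]; ring)).1
      exact one_ne_zero h3
    refine ⟨hkc, fun h0 => ?_⟩
    have h3 := (comb hli hki hkj hij (-(H j a * H i c - H i a * H j c) / H k c) (H j a) (-H i a) (by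
        intro τ
        rcases hall τ with h | h | h <;> rw [h]
        · rw [h1]; ring
        · rw [h2]; linear_combination -h0
        · rw [div_mul_cancel₀ _ hkc]; ring)).2.2
    exact hia (neg_eq_zero.1 h3)
  · have hmin : H i a * H j b - H i b * H j a ≠ 0 := by
      intro h0
      have h3 := (comb hli hki hkj hij 0 (H j a) (-H i a) (by
        intro τ
        rcases hall τ with h | h | h <;> rw [h]
        · ring
        · linear_combination -h0
        · rw [h1, h2]; ring)).2.2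
      exact hia (neg_eq_zero.1 h3)
    refine ⟨fun h0 => ?_, hmin⟩
    have h3 := (comb hli hki hkj hij (H i a * H j b - H i b * H j a)
      (-(H k a * H j b - H k b * H j a)) (-(H i a * H k b - H i b * H k a)) (by
        intro τ
        rcases hall τ with h | h | h <;> rw [h]
        · ring
        · ring
        · rw [h1, h2, h0]; ring)).1
    exact hmin h3

/-- real vectors with prescribed conjugates -/
lemma real_vec (bb : Module.Basis (Fin 3) ℚ K) (w : (K →+* ℂ) → ℂ)
    (hw : ∀ τ, w (ComplexEmbedding.conjugate τ) = (starRingEnd ℂ) (w τ)) :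
    ∃ x : Fin 3 → ℝ, ∀ τ, ev bb τ x = w τ := by
  obtain ⟨x, hx⟩ := embed_surj' bb w
  refine ⟨fun j => (x j).re, fun τ => ?_⟩
  have h1 : ∀ j, (((x j).re : ℝ) : ℂ) = (x j + (starRingEnd ℂ) (x j)) / 2 := by
    intro j
    rw [Complex.add_conj]
    push_cast
    ring
  have h2 : ∑ j, (starRingEnd ℂ) (x j) * τ (bb j) = w τ := by
    have h3 : ∀ j, (starRingEnd ℂ) (x j) * τ (bb j)
        = (starRingEnd ℂ) (x j * (ComplexEmbedding.conjugate τ) (bb j)) := by
      intro j
      rw [map_mul, ComplexEmbedding.conjugate_coe_eq, Complex.conj_conj]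
    rw [Finset.sum_congr rfl fun j _ => h3 j, ← map_sum, hx, hw, Complex.conj_conj]
  unfold ev
  have h4 : ∀ j, (((x j).re : ℝ) : ℂ) * τ (bb j)
      = (x j * τ (bb j)) / 2 + ((starRingEnd ℂ) (x j) * τ (bb j)) / 2 := by
    intro j
    rw [h1]
    ring
  rw [Finset.sum_congr rfl fun j _ => h4 j, Finset.sum_add_distrib, ← Finset.sum_div,
    ← Finset.sum_div, hx, h2]
  ring

/-- integer points with a prescribed sign of the product of two real conjugates -/
lemma exists_sign (bb : Module.Basis (Fin 3) ℚ K) {a b : K →+* ℂ} (hab : a ≠ b)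
    (hb : ComplexEmbedding.IsReal b) (σ : ℝ) (hσ : σ = 1 ∨ σ = -1) :
    ∃ x : Fin 3 → ℤ, 0 < (a (∑ j, (x j : ℚ) • bb j)).re ∧
      0 < σ * (b (∑ j, (x j : ℚ) • bb j)).re := by
  classical
  obtain ⟨x0, hx0⟩ := real_vec bb (fun τ => if τ = b then (σ : ℂ) else 1) (by
    intro τ
    have hbc : ComplexEmbedding.conjugate τ = b ↔ τ = b := by
      constructor
      · intro h
        have h2 := congrArg ComplexEmbedding.conjugate h
        rw [ComplexEmbedding.isReal_iff.1 hb] at h2
        have h3 : ComplexEmbedding.conjugate (ComplexEmbedding.conjugate τ) = τ :=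
          star_involutive τ
        rw [h3] at h2
        exact h2
      · intro h
        rw [h]
        exact ComplexEmbedding.isReal_iff.1 hb
    by_cases h : τ = b
    · rw [if_pos (hbc.2 h), if_pos h, Complex.conj_ofReal]
    · rw [if_neg (fun h' => h (hbc.1 h')), if_neg h, map_one])
  set M : ℝ := ∑ τ : K →+* ℂ, ∑ j, ‖τ (bb j)‖ with hM
  have hMτ : ∀ τ : K →+* ℂ, ∑ j, ‖τ (bb j)‖ ≤ M := fun τ =>
    Finset.single_le_sum (f := fun τ : K →+* ℂ => ∑ j, ‖τ (bb j)‖)
      (fun τ _ => Finset.sum_nonneg fun j _ => norm_nonneg _) (Finset.mem_univ τ)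
  obtain ⟨n, hn⟩ := exists_nat_gt M
  set y : Fin 3 → ℤ := fun j => round ((n : ℝ) * x0 j) with hy
  have hclose : ∀ τ : K →+* ℂ, ‖τ (∑ j, (y j : ℚ) • bb j) - n * ev bb τ x0‖ ≤ M := by
    intro τ
    rw [← ev_int bb τ y]
    unfold ev
    rw [Finset.mul_sum, ← Finset.sum_sub_distrib]
    refine (norm_sum_le _ _).trans (le_trans (Finset.sum_le_sum fun j _ => ?_) (hMτ τ))
    have h1 : ((iR y j : ℝ) : ℂ) * τ (bb j) - n * ((x0 j : ℂ) * τ (bb j)) =
        (((round ((n : ℝ) * x0 j) : ℝ) - n * x0 j : ℝ) : ℂ) * τ (bb j) := by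
      simp only [iR, hy]
      push_cast
      ring
    rw [h1, norm_mul, Complex.norm_real, Real.norm_eq_abs]
    have h2 : |(round ((n : ℝ) * x0 j) : ℝ) - n * x0 j| ≤ 1 := by
      rw [abs_sub_comm]
      exact (abs_sub_round _).trans (by norm_num)
    calc |(round ((n : ℝ) * x0 j) : ℝ) - n * x0 j| * ‖τ (bb j)‖ ≤ 1 * ‖τ (bb j)‖ :=
          mul_le_mul_of_nonneg_right h2 (norm_nonneg _)
      _ = _ := one_mul _
  refine ⟨y, ?_, ?_⟩
  · have h1 := hclose a
    rw [hx0 a, if_neg hab, mul_one] at h1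
    have h2 := (Complex.abs_re_le_norm _).trans h1
    rw [Complex.sub_re, Complex.natCast_re, abs_le] at h2
    linarith [h2.1]
  · have h1 := hclose b
    rw [hx0 b, if_pos rfl] at h1
    have h2 := (Complex.abs_re_le_norm _).trans h1
    have h3 : ((n : ℂ) * (σ : ℂ)).re = n * σ := by
      rw [← Complex.ofReal_natCast, ← Complex.ofReal_mul, Complex.ofReal_re]
    rw [Complex.sub_re, h3, abs_le] at h2
    rcases hσ with h | h
    · rw [h] at h2 ⊢; linarith [h2.1]
    · rw [h] at h2 ⊢; linarith [h2.2]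

/-- the values are dense with a rate, for a configuration -/
theorem conf_main (hK : Module.finrank ℚ K = 3) (bb : Module.Basis (Fin 3) ℚ K) {N : ℕ}
    (hN : 0 < N) (hNe : Even N)
    (act : ∀ u : (𝓞 K)ˣ, ∀ x : Fin 3 → ℤ, ∃ y : Fin 3 → ℤ,
      ∑ j, (y j : ℚ) • bb j = (((u ^ N : (𝓞 K)ˣ) : 𝓞 K) : K) * ∑ j, (x j : ℚ) • bb j)
    (g : Matrix (Fin 3) (Fin 3) ℝ) (H : Fin 3 → (K →+* ℂ) → ℂ)
    (hH : ∀ i j, (g i j : ℂ) = ∑ τ : K →+* ℂ, H i τ * τ (bb j))
    (hli : LinearIndependent ℂ H)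
    (hconj : ∀ r τ, H r (ComplexEmbedding.conjugate τ) = (starRingEnd ℂ) (H r τ))
    {a b c : K →+* ℂ} (hab : a ≠ b) (hac : a ≠ c) (hbc : b ≠ c)
    (hall : ∀ τ : K →+* ℂ, τ = a ∨ τ = b ∨ τ = c)
    {k i j : Fin 3} (hki : k ≠ i) (hkj : k ≠ j) (hij : i ≠ j)
    (hreal : (ComplexEmbedding.IsReal a ∧ ComplexEmbedding.IsReal b ∧ ComplexEmbedding.IsReal c) ∨
      (b = ComplexEmbedding.conjugate a ∧ ComplexEmbedding.IsReal c))
    (hia : H i a ≠ 0) (hib : H i b ≠ 0)
    (htype : (H k a = 0 ∧ H k b = 0) ∨ (H i c = 0 ∧ H j c = 0)) (c0 : ℝ) :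
    ∃ C : ℝ, ∀ R : ℝ, ∃ y : Fin 3 → ℤ, R ≤ ‖y‖ ∧
      |∏ i, ∑ j, g i j * (y j : ℝ) - c0| * Real.log ‖y‖ ≤ C := by
  classical
  obtain ⟨hkc, hmin⟩ := minors hli hki hkj hij hall hia htype
  have hreal_val : ∀ {τ : K →+* ℂ}, ComplexEmbedding.IsReal τ → ∀ z : K,
      (starRingEnd ℂ) (τ z) = τ z := by
    intro τ hτ z
    have := congrArg (fun f : K →+* ℂ => f z) (ComplexEmbedding.isReal_iff.1 hτ)
    simp only [ComplexEmbedding.conjugate_coe_eq] at this
    exact this
  have hHreal : ∀ {τ : K →+* ℂ}, ComplexEmbedding.IsReal τ → ∀ r, (starRingEnd ℂ) (H r τ) = H r τ := by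
    intro τ hτ r
    rw [← hconj r τ, ComplexEmbedding.isReal_iff.1 hτ]
  have hcreal : ComplexEmbedding.IsReal c := by
    rcases hreal with h | h
    · exact h.2.2
    · exact h.2
  -- the sign and the point
  obtain ⟨κ, x1, hκA, hx1, hlead⟩ : ∃ (κ : ℂ) (x1 : Fin 3 → ℤ),
      (∀ ε : ℝ, (ε = 1 ∨ ε = -1) → Approx N a b c ε κ) ∧
      (∑ l, (x1 l : ℚ) • bb l ≠ 0) ∧
      ∃ (n : ℕ) (t0 : ℝ), 0 < n ∧ (n : ℂ) ^ 3 * ((H k c * c (∑ l, (x1 l : ℚ) • bb l)) *
        alf κ (H i a * a (∑ l, (x1 l : ℚ) • bb l)) (H i b * b (∑ l, (x1 l : ℚ) • bb l)) t0 *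
        alf κ (H j a * a (∑ l, (x1 l : ℚ) • bb l)) (H j b * b (∑ l, (x1 l : ℚ) • bb l)) t0) = c0 := by
    rcases hreal with ⟨ha, hb, hc⟩ | ⟨hb, hc⟩
    · obtain ⟨p, hp⟩ := Complex.conj_eq_iff_real.1 (hHreal ha i)
      obtain ⟨q, hq⟩ := Complex.conj_eq_iff_real.1 (hHreal hb i)
      have hp0 : p ≠ 0 := by
        intro h0
        rw [h0] at hp
        exact hia (by rw [hp]; simp)
      have hq0 : q ≠ 0 := by
        intro h0
        rw [h0] at hq
        exact hib (by rw [hq]; simp)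
      obtain ⟨σ, hσ, hσ2⟩ : ∃ σ : ℝ, (σ = 1 ∨ σ = -1) ∧ p * q * σ < 0 := by
        rcases lt_or_gt_of_ne (mul_ne_zero hp0 hq0) with h | h
        · exact ⟨1, Or.inl rfl, by linarith⟩
        · exact ⟨-1, Or.inr rfl, by linarith⟩
      obtain ⟨x1, hxa, hxb⟩ := exists_sign bb hab hb σ hσ
      set ξ : K := ∑ l, (x1 l : ℚ) • bb l with hξ
      have hξ0 : ξ ≠ 0 := by
        intro h0
        rw [h0, map_zero, Complex.zero_re] at hxa
        exact lt_irrefl _ hxa
      obtain ⟨X, hX⟩ := Complex.conj_eq_iff_real.1 (hreal_val ha ξ)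
      obtain ⟨Y, hY⟩ := Complex.conj_eq_iff_real.1 (hreal_val hb ξ)
      rw [hX, Complex.ofReal_re] at hxa
      rw [hY, Complex.ofReal_re] at hxb
      refine ⟨1 / 2, x1, fun ε hε => approx_real hK hN hNe hab hac hbc ha hb hc hall hε, hξ0, ?_⟩
      have hXne : a ξ ≠ 0 := (map_ne_zero a).2 hξ0
      have hYne : b ξ ≠ 0 := (map_ne_zero b).2 hξ0
      have hZne : c ξ ≠ 0 := (map_ne_zero c).2 hξ0
      apply leading
      · exact mul_ne_zero hkc hZne
      · rw [map_mul, hHreal hc, hreal_val hc]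
      · exact mul_ne_zero hia hXne
      · have : H i a * a ξ * (H j b * b ξ) - H i b * b ξ * (H j a * a ξ) =
            (a ξ * b ξ) * (H i a * H j b - H i b * H j a) := by ring
        rw [this]
        exact mul_ne_zero (mul_ne_zero hXne hYne) hmin
      · left
        refine ⟨rfl, ?_, ?_, ?_, ?_, ?_⟩
        · rw [map_mul, hHreal ha, hreal_val ha]
        · rw [map_mul, hHreal hb, hreal_val hb]
        · rw [map_mul, hHreal ha, hreal_val ha]
        · rw [map_mul, hHreal hb, hreal_val hb]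
        · rw [hX, hY, hp, hq]
          have h1 : (p : ℂ) * X * (q * Y) = ((p * X * (q * Y) : ℝ) : ℂ) := by push_cast; ring
          rw [h1, Complex.ofReal_re]
          rcases hσ with h | h
          · rw [h, one_mul] at hxb
            rw [h] at hσ2
            have h2 : 0 < X * Y := mul_pos hxa hxb
            nlinarith
          · rw [h] at hxb hσ2
            have h2 : 0 < X * (-Y) := mul_pos hxa (by linarith)
            nlinarith
    · have hbz : ∀ z, b z = (starRingEnd ℂ) (a z) := by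
        intro z
        rw [hb, ComplexEmbedding.conjugate_coe_eq]
      have hHb : ∀ r, H r b = (starRingEnd ℂ) (H r a) := by
        intro r
        rw [hb, hconj]
      refine ⟨Complex.I, Pi.single 0 1,
        fun ε hε => approx_cplx hK hN hNe hab hac hbc hb hc hall hε, ?_, ?_⟩
      · have h1 : (∑ l, ((Pi.single (0 : Fin 3) (1 : ℤ) : Fin 3 → ℤ) l : ℚ) • bb l) = bb 0 := by
          rw [Finset.sum_eq_single (0 : Fin 3)]
          · simp
          · intro l _ hl
            simp [Pi.single_eq_of_ne hl]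
          · intro h
            exact absurd (Finset.mem_univ _) h
        rw [h1]
        exact bb.ne_zero 0
      · set ξ : K := ∑ l, ((Pi.single (0 : Fin 3) (1 : ℤ) : Fin 3 → ℤ) l : ℚ) • bb l with hξ
        have hξ0 : ξ ≠ 0 := by
          have h1 : ξ = bb 0 := by
            rw [hξ, Finset.sum_eq_single (0 : Fin 3)]
            · simp
            · intro l _ hl
              simp [Pi.single_eq_of_ne hl]
            · intro h
              exact absurd (Finset.mem_univ _) h
          rw [h1]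
          exact bb.ne_zero 0
        have hXne : a ξ ≠ 0 := (map_ne_zero a).2 hξ0
        have hYne : b ξ ≠ 0 := (map_ne_zero b).2 hξ0
        have hZne : c ξ ≠ 0 := (map_ne_zero c).2 hξ0
        apply leading
        · exact mul_ne_zero hkc hZne
        · rw [map_mul, hHreal hc, hreal_val hc]
        · exact mul_ne_zero hia hXne
        · have : H i a * a ξ * (H j b * b ξ) - H i b * b ξ * (H j a * a ξ) =
              (a ξ * b ξ) * (H i a * H j b - H i b * H j a) := by ring
          rw [this]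
          exact mul_ne_zero (mul_ne_zero hXne hYne) hmin
        · right
          refine ⟨rfl, ?_, ?_⟩
          · rw [map_mul, hHb, hbz]
          · rw [map_mul, hHb, hbz]
  obtain ⟨n, t0, hn, hval⟩ := hlead
  -- the scaled point
  set ξ1 : K := ∑ l, (x1 l : ℚ) • bb l with hξ1
  set x : Fin 3 → ℤ := fun l => n * x1 l with hxdef
  have hxξ : ∑ l, (x l : ℚ) • bb l = (n : K) * ξ1 := by
    rw [hξ1, Finset.mul_sum]
    refine Finset.sum_congr rfl fun l _ => ?_
    simp only [hxdef, Algebra.smul_def]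
    push_cast
    simp
    ring
  have hx0 : ∑ l, (x l : ℚ) • bb l ≠ 0 := by
    rw [hxξ]
    exact mul_ne_zero (by exact_mod_cast hn.ne') hx1
  set ξ : K := ∑ l, (x l : ℚ) • bb l with hξ
  have hτξ : ∀ τ : K →+* ℂ, τ ξ = n * τ ξ1 := by
    intro τ
    rw [hxξ, map_mul, map_natCast]
  have hΨ : H k c * c ξ * alf κ (H i a * a ξ) (H i b * b ξ) t0 *
      alf κ (H j a * a ξ) (H j b * b ξ) t0 = c0 := by
    rw [← hval, hτξ, hτξ, hτξ]
    have e1 : alf κ (H i a * (n * a ξ1)) (H i b * (n * b ξ1)) t0 =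
        n * alf κ (H i a * a ξ1) (H i b * b ξ1) t0 := by
      rw [← alf_smul]; congr 1 <;> ring
    have e2 : alf κ (H j a * (n * a ξ1)) (H j b * (n * b ξ1)) t0 =
        n * alf κ (H j a * a ξ1) (H j b * b ξ1) t0 := by
      rw [← alf_smul]; congr 1 <;> ring
    rw [e1, e2]
    ring
  have hci : ContDiff ℝ 1 fun p : ℝ × ℝ => alf κ (H i a * a ξ) (H i b * b ξ) p.1 :=
    (contDiff_alf _ _ _).comp contDiff_fst
  have hcj : ContDiff ℝ 1 fun p : ℝ × ℝ => alf κ (H j a * a ξ) (H j b * b ξ) p.1 :=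
    (contDiff_alf _ _ _).comp contDiff_fst
  have hck : ContDiff ℝ 1 fun p : ℝ × ℝ => alf κ (H k a * a ξ) (H k b * b ξ) p.1 :=
    (contDiff_alf _ _ _).comp contDiff_fst
  have hcw : ContDiff ℝ 1 fun p : ℝ × ℝ => ((p.2 : ℝ) : ℂ) :=
    Complex.ofRealCLM.contDiff.comp contDiff_snd
  have hrow : ∀ (v : (𝓞 K)ˣ) (r : Fin 3), ∑ τ : K →+* ℂ, H r τ * τ (uu N v * ξ) =
      H r a * (a (uu N v) * a ξ) + H r b * (b (uu N v) * b ξ) + H r c * (c (uu N v) * c ξ) := by
    intro v r
    rw [sum_embs hab hac hbc hall]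
    simp only [map_mul]
  rcases htype with ⟨hka, hkb⟩ | ⟨hic, hjc⟩
  · -- type L
    refine final_step bb act g H hH hab hac hbc hall (ε := 1) (Or.inl rfl) (hκA 1 (Or.inl rfl))
      x hx0 (fun p => H k c * c ξ * (alf κ (H i a * a ξ) (H i b * b ξ) p.1 + H i c * c ξ * (p.2 : ℂ)) *
        (alf κ (H j a * a ξ) (H j b * b ξ) p.1 + H j c * c ξ * (p.2 : ℂ))) ?_ c0 t0 ?_ ?_
    · exact (contDiff_const.mul (hci.add (contDiff_const.mul hcw))).mul
        (hcj.add (contDiff_const.mul hcw))
    · simp only [Complex.ofReal_zero, mul_zero, add_zero]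
      exact hΨ
    · intro v s t hva hvb hvc
      rw [prod_rows hki hkj hij, hrow, hrow, hrow, hva, hvb, hvc, hka, hkb]
      have hE : Complex.exp s ≠ 0 := Complex.exp_ne_zero _
      have e1 : Complex.exp (((1 : ℝ) : ℂ) * s + κ * t) = Complex.exp s * Complex.exp (κ * t) := by
        rw [← Complex.exp_add]; congr 1; push_cast; ring
      have e2 : Complex.exp (((1 : ℝ) : ℂ) * s - κ * t) =
          Complex.exp s * Complex.exp (-(κ * t)) := by
        rw [← Complex.exp_add]; congr 1; push_cast; ring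
      have e3 : Complex.exp (-2 * ((1 : ℝ) : ℂ) * s) = (Complex.exp s)⁻¹ * (Complex.exp s)⁻¹ := by
        rw [← Complex.exp_neg, ← Complex.exp_add]; congr 1; push_cast; ring
      have e4 : ((Real.exp (-3 * s) : ℝ) : ℂ) =
          (Complex.exp s)⁻¹ * (Complex.exp s)⁻¹ * (Complex.exp s)⁻¹ := by
        rw [Complex.ofReal_exp, ← Complex.exp_neg, ← Complex.exp_add, ← Complex.exp_add]
        congr 1; push_cast; ring
      rw [e1, e2, e3]
      simp only [e4]
      unfold alf
      field_simp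
      ring
  · -- type S
    refine final_step bb act g H hH hab hac hbc hall (ε := -1) (Or.inr rfl) (hκA (-1) (Or.inr rfl))
      x hx0 (fun p => alf κ (H i a * a ξ) (H i b * b ξ) p.1 *
        alf κ (H j a * a ξ) (H j b * b ξ) p.1 *
        (H k c * c ξ + alf κ (H k a * a ξ) (H k b * b ξ) p.1 * (p.2 : ℂ))) ?_ c0 t0 ?_ ?_
    · exact (hci.mul hcj).mul (contDiff_const.add (hck.mul hcw))
    · simp only [Complex.ofReal_zero, mul_zero, add_zero]
      rw [← hΨ]
      ring
    · intro v s t hva hvb hvc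
      rw [prod_rows hki hkj hij, hrow, hrow, hrow, hva, hvb, hvc, hic, hjc]
      have hE : Complex.exp s ≠ 0 := Complex.exp_ne_zero _
      have e1 : Complex.exp (((-1 : ℝ) : ℂ) * s + κ * t) =
          (Complex.exp s)⁻¹ * Complex.exp (κ * t) := by
        rw [← Complex.exp_neg, ← Complex.exp_add]; congr 1; push_cast; ring
      have e2 : Complex.exp (((-1 : ℝ) : ℂ) * s - κ * t) =
          (Complex.exp s)⁻¹ * Complex.exp (-(κ * t)) := by
        rw [← Complex.exp_neg, ← Complex.exp_add]; congr 1; push_cast; ring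
      have e3 : Complex.exp (-2 * ((-1 : ℝ) : ℂ) * s) = Complex.exp s * Complex.exp s := by
        rw [← Complex.exp_add]; congr 1; push_cast; ring
      have e4 : ((Real.exp (-3 * s) : ℝ) : ℂ) =
          (Complex.exp s)⁻¹ * (Complex.exp s)⁻¹ * (Complex.exp s)⁻¹ := by
        rw [Complex.ofReal_exp, ← Complex.exp_neg, ← Complex.exp_add, ← Complex.exp_add]
        congr 1; push_cast; ring
      rw [e1, e2, e3]
      simp only [e4]
      unfold alf
      field_simp
      ring

end Pool.Agent.K6.H70.PK
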