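import Mathlib
import Pool.Agent.K6.H70.PK.Main

/-! # The dichotomy for products of three linear forms -/

open NumberField H715R2 Filter Topology

namespace Pool.Agent.K6.H70.PK

variable {K : Type*} [Field K] [NumberField K]

/-- the conclusion -/
def Concl (g : Matrix (Fin 3) (Fin 3) ℝ) : Prop :=
  ∀ c0 : ℝ, ∃ C : ℝ, ∀ R : ℝ, ∃ y : Fin 3 → ℤ, R ≤ ‖y‖ ∧
      |∏ i, ∑ j, g i j * (y j : ℝ) - c0| * Real.log ‖y‖ ≤ C

/-- monomial coefficients give a norm form -/
lemma mono_propInt (bb : Module.Basis (Fin 3) ℚ K)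
    (g : Matrix (Fin 3) (Fin 3) ℝ) (hg : g.det ≠ 0) (H : Fin 3 → (K →+* ℂ) → ℂ)
    (hH : ∀ i j, (g i j : ℂ) = ∑ τ : K →+* ℂ, H i τ * τ (bb j))
    {a b c : K →+* ℂ} (hab : a ≠ b) (hac : a ≠ c) (hbc : b ≠ c)
    (hall : ∀ τ : K →+* ℂ, τ = a ∨ τ = b ∨ τ = c)
    {k i j : Fin 3} (hki : k ≠ i) (hkj : k ≠ j) (hij : i ≠ j)
    (h1 : H k a = 0) (h2 : H k b = 0) (h3 : H i b = 0) (h4 : H i c = 0) (h5 : H j a = 0)
    (h6 : H j c = 0) : PropInt g := by
  classical
  have hrows : ∀ r : Fin 3, r = k ∨ r = i ∨ r = j := by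
    intro r
    have huniv : (Finset.univ : Finset (Fin 3)) = {k, i, j} := by
      symm
      apply Finset.eq_univ_of_card
      rw [Finset.card_insert_of_notMem (by simp [hki, hkj]),
        Finset.card_insert_of_notMem (by simp [hij]), Finset.card_singleton, Fintype.card_fin]
    have := Finset.mem_univ r
    rw [huniv] at this
    simpa using this
  set t : Fin 3 → (K →+* ℂ) := fun r => if r = k then c else if r = i then a else b with ht
  have htk : t k = c := by simp [ht]
  have hti : t i = a := by simp [ht, hki.symm]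
  have htj : t j = b := by simp [ht, hkj.symm, hij.symm]
  have hbij : Function.Bijective t := by
    constructor
    · intro r r' h
      rcases hrows r with h1 | h1 | h1 <;> rcases hrows r' with h2 | h2 | h2 <;>
        rw [h1, h2] at h ⊢ <;> simp only [htk, hti, htj] at h
      · exact absurd h.symm hac
      · exact absurd h.symm hbc
      · exact absurd h hac
      · exact absurd h hab
      · exact absurd h hbc
      · exact absurd h.symm hab
    · intro τ
      rcases hall τ with h | h | h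
      · exact ⟨i, by rw [hti, h]⟩
      · exact ⟨j, by rw [htj, h]⟩
      · exact ⟨k, by rw [htk, h]⟩
  refine norm_form (by norm_num) (fun l => bb l) t hbij (fun r => H r (t r)) g hg ?_
  intro r l
  rw [hH, sum_embs hab hac hbc hall]
  rcases hrows r with h | h | h <;> rw [h]
  · rw [htk, h1, h2]; ring
  · rw [hti, h3, h4]; ring
  · rw [htj, h5, h6]; ring

/-- the third embedding, and reality -/
lemma three {K : Type*} [Field K] [NumberField K] (hK : Module.finrank ℚ K = 3) (c : K →+* ℂ)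
    (hc : ComplexEmbedding.IsReal c) : ∃ a b : K →+* ℂ, a ≠ b ∧ a ≠ c ∧ b ≠ c ∧
    (∀ τ : K →+* ℂ, τ = a ∨ τ = b ∨ τ = c) ∧
    ((ComplexEmbedding.IsReal a ∧ ComplexEmbedding.IsReal b ∧ ComplexEmbedding.IsReal c) ∨
      (b = ComplexEmbedding.conjugate a ∧ ComplexEmbedding.IsReal c)) := by
  classical
  have hcard : Fintype.card (K →+* ℂ) = 3 := by rw [NumberField.Embeddings.card K ℂ, hK]
  have h1 : ((Finset.univ : Finset (K →+* ℂ)).erase c).card = 2 := by
    rw [Finset.card_erase_of_mem (Finset.mem_univ _), Finset.card_univ, hcard]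
  obtain ⟨a, b, hab, heq⟩ := Finset.card_eq_two.1 h1
  have ha : a ∈ (Finset.univ : Finset (K →+* ℂ)).erase c := by rw [heq]; simp
  have hb : b ∈ (Finset.univ : Finset (K →+* ℂ)).erase c := by rw [heq]; simp
  have hac : a ≠ c := Finset.ne_of_mem_erase ha
  have hbc : b ≠ c := Finset.ne_of_mem_erase hb
  have hall : ∀ τ : K →+* ℂ, τ = a ∨ τ = b ∨ τ = c := by
    intro τ
    by_cases h : τ = c
    · exact Or.inr (Or.inr h)
    · have : τ ∈ (Finset.univ : Finset (K →+* ℂ)).erase c :=
        Finset.mem_erase.2 ⟨h, Finset.mem_univ _⟩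
      rw [heq] at this
      simp only [Finset.mem_insert, Finset.mem_singleton] at this
      tauto
  have hinv : ∀ τ : K →+* ℂ, ComplexEmbedding.conjugate (ComplexEmbedding.conjugate τ) = τ :=
    fun τ => star_involutive τ
  have hcc := ComplexEmbedding.isReal_iff.1 hc
  refine ⟨a, b, hab, hac, hbc, hall, ?_⟩
  rcases hall (ComplexEmbedding.conjugate a) with h | h | h
  · left
    refine ⟨ComplexEmbedding.isReal_iff.2 h, ?_, hc⟩
    rcases hall (ComplexEmbedding.conjugate b) with h' | h' | h'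
    · exfalso
      have := hinv b
      rw [h', h] at this
      exact hab this
    · exact ComplexEmbedding.isReal_iff.2 h'
    · exfalso
      have := hinv b
      rw [h', hcc] at this
      exact hbc this.symm
  · right
    exact ⟨h.symm, hc⟩
  · exfalso
    have := hinv a
    rw [h, hcc] at this
    exact hac this.symm

/-- one row supported at a real embedding -/
lemma case_one (hK : Module.finrank ℚ K = 3) (bb : Module.Basis (Fin 3) ℚ K) {N : ℕ}
    (hN : 0 < N) (hNe : Even N)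
    (act : ∀ u : (𝓞 K)ˣ, ∀ x : Fin 3 → ℤ, ∃ y : Fin 3 → ℤ,
      ∑ j, (y j : ℚ) • bb j = (((u ^ N : (𝓞 K)ˣ) : 𝓞 K) : K) * ∑ j, (x j : ℚ) • bb j)
    (g : Matrix (Fin 3) (Fin 3) ℝ) (hg : g.det ≠ 0) (H : Fin 3 → (K →+* ℂ) → ℂ)
    (hH : ∀ i j, (g i j : ℂ) = ∑ τ : K →+* ℂ, H i τ * τ (bb j))
    (hli : LinearIndependent ℂ H)
    (hconj : ∀ r τ, H r (ComplexEmbedding.conjugate τ) = (starRingEnd ℂ) (H r τ))
    {a b c : K →+* ℂ} (hab : a ≠ b) (hac : a ≠ c) (hbc : b ≠ c)
    (hall : ∀ τ : K →+* ℂ, τ = a ∨ τ = b ∨ τ = c)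
    {k i j : Fin 3} (hki : k ≠ i) (hkj : k ≠ j) (hij : i ≠ j)
    (hreal : (ComplexEmbedding.IsReal a ∧ ComplexEmbedding.IsReal b ∧ ComplexEmbedding.IsReal c) ∨
      (b = ComplexEmbedding.conjugate a ∧ ComplexEmbedding.IsReal c))
    (hka : H k a = 0) (hkb : H k b = 0) : PropInt g ∨ Concl g := by
  -- nonvanishing facts
  have hne : ¬ (H i a = 0 ∧ H i b = 0) ∧ ¬ (H j a = 0 ∧ H j b = 0) := by
    have hkc : H k c ≠ 0 := by
      intro h0
      have h3 := (comb hli hki hkj hij 1 0 0 (by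
        intro τ
        rcases hall τ with h | h | h <;> rw [h]
        · rw [hka]; ring
        · rw [hkb]; ring
        · rw [h0]; ring)).1
      exact one_ne_zero h3
    constructor
    · rintro ⟨h1, h2⟩
      have h3 := (comb hli hki hkj hij (-(H i c) / H k c) 1 0 (by
        intro τ
        rcases hall τ with h | h | h <;> rw [h]
        · rw [hka, h1]; ring
        · rw [hkb, h2]; ring
        · rw [div_mul_cancel₀ _ hkc]; ring)).2.1
      exact one_ne_zero h3
    · rintro ⟨h1, h2⟩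
      have h3 := (comb hli hki hkj hij (-(H j c) / H k c) 0 1 (by
        intro τ
        rcases hall τ with h | h | h <;> rw [h]
        · rw [hka, h1]; ring
        · rw [hkb, h2]; ring
        · rw [div_mul_cancel₀ _ hkc]; ring)).2.2
      exact one_ne_zero h3
  by_cases hi : H i a ≠ 0 ∧ H i b ≠ 0
  · right
    intro c0
    exact conf_main hK bb hN hNe act g H hH hli hconj hab hac hbc hall hki hkj hij hreal hi.1 hi.2
      (Or.inl ⟨hka, hkb⟩) c0
  by_cases hj : H j a ≠ 0 ∧ H j b ≠ 0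
  · right
    intro c0
    exact conf_main hK bb hN hNe act g H hH hli hconj hab hac hbc hall hkj hki hij.symm hreal
      hj.1 hj.2 (Or.inl ⟨hka, hkb⟩) c0
  -- each of the rows `i`, `j` has exactly one nonzero coefficient at `a`, `b`; so all is real
  have hr : ComplexEmbedding.IsReal a ∧ ComplexEmbedding.IsReal b ∧ ComplexEmbedding.IsReal c := by
    rcases hreal with h | ⟨h, _⟩
    · exact h
    · exfalso
      have h1 : H i b = (starRingEnd ℂ) (H i a) := by rw [h, hconj]
      by_cases h2 : H i a = 0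
      · exact hne.1 ⟨h2, by rw [h1, h2, map_zero]⟩
      · exact hi ⟨h2, by rw [h1]; exact (map_ne_zero _).2 h2⟩
  obtain ⟨ha, hb, hc⟩ := hr
  -- the two arrangements
  have key : ∀ {a b : K →+* ℂ}, a ≠ b → a ≠ c → b ≠ c → (∀ τ : K →+* ℂ, τ = a ∨ τ = b ∨ τ = c) →
      ComplexEmbedding.IsReal a → ComplexEmbedding.IsReal b → H k a = 0 → H k b = 0 →
      H i a ≠ 0 → H i b = 0 → H j a = 0 → H j b ≠ 0 → PropInt g ∨ Concl g := by
    intro a b hab hac hbc hall ha hb hka hkb h1 h2 h3 h4
    by_cases h5 : H i c = 0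
    · by_cases h6 : H j c = 0
      · left
        exact mono_propInt bb g hg H hH hab hac hbc hall hki hkj hij hka hkb h2 h5 h3 h6
      · right
        intro c0
        exact conf_main hK bb hN hNe act g H hH hli hconj (a := b) (b := c) (c := a) hbc hab.symm
          hac.symm (fun τ => by rcases hall τ with h | h | h <;> simp [h]) (k := i) (i := j) (j := k)
          hij hki.symm hkj.symm (Or.inl ⟨hb, hc, ha⟩) h4 h6 (Or.inr ⟨h3, hka⟩) c0
    · right
      intro c0
      exact conf_main hK bb hN hNe act g H hH hli hconj (a := a) (b := c) (c := b) hac hab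
        hbc.symm (fun τ => by rcases hall τ with h | h | h <;> simp [h]) (k := j) (i := i) (j := k)
        hij.symm hkj.symm hki.symm (Or.inl ⟨ha, hc, hb⟩) h1 h5 (Or.inr ⟨h2, hkb⟩) c0
  have hia : H i a ≠ 0 ∨ H i b ≠ 0 := by
    by_contra hcon
    push Not at hcon
    exact hne.1 hcon
  have hja : H j a ≠ 0 ∨ H j b ≠ 0 := by
    by_contra hcon
    push Not at hcon
    exact hne.2 hcon
  have hmin : ∀ {τ τ' : K →+* ℂ}, (τ = a ∧ τ' = b ∨ τ = b ∧ τ' = a) → H i τ ≠ 0 → H i τ' = 0 →
      H j τ' = 0 → False := by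
    intro τ τ' hττ h1 h2 h3
    have hkc : H k c ≠ 0 := by
      intro h0
      have h3 := (comb hli hki hkj hij 1 0 0 (by
        intro τ
        rcases hall τ with h | h | h <;> rw [h]
        · rw [hka]; ring
        · rw [hkb]; ring
        · rw [h0]; ring)).1
      exact one_ne_zero h3
    have h4 := (comb hli hki hkj hij (-(H j τ * H i c - H i τ * H j c) / H k c) (H j τ) (-H i τ) (by
        intro φ
        have h5 : φ = c ∨ φ = τ ∨ φ = τ' := by
          rcases hττ with ⟨rfl, rfl⟩ | ⟨rfl, rfl⟩ <;> rcases hall φ with h | h | h <;> simp [h]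
        have h6 : H k τ = 0 ∧ H k τ' = 0 := by
          rcases hττ with ⟨rfl, rfl⟩ | ⟨rfl, rfl⟩
          · exact ⟨hka, hkb⟩
          · exact ⟨hkb, hka⟩
        rcases h5 with h | h | h <;> rw [h]
        · rw [div_mul_cancel₀ _ hkc]; ring
        · rw [h6.1]; ring
        · rw [h6.2, h2, h3]; ring)).2.2
    exact h1 (neg_eq_zero.1 h4)
  rcases hia with h1 | h1
  · have h2 : H i b = 0 := by
      by_contra h
      exact hi ⟨h1, h⟩
    have h4 : H j b ≠ 0 := fun h => hmin (Or.inl ⟨rfl, rfl⟩) h1 h2 h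
    have h3 : H j a = 0 := by
      by_contra h
      exact hj ⟨h, h4⟩
    exact key hab hac hbc hall ha hb hka hkb h1 h2 h3 h4
  · have h2 : H i a = 0 := by
      by_contra h
      exact hi ⟨h, h1⟩
    have h4 : H j a ≠ 0 := fun h => hmin (Or.inr ⟨rfl, rfl⟩) h1 h2 h
    have h3 : H j b = 0 := by
      by_contra h
      exact hj ⟨h4, h⟩
    exact key hab.symm hbc hac (fun τ => by rcases hall τ with h | h | h <;> simp [h]) hb ha hkb hka
      h1 h2 h3 h4

/-- two rows vanishing at a real embedding -/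
lemma case_two (hK : Module.finrank ℚ K = 3) (bb : Module.Basis (Fin 3) ℚ K) {N : ℕ}
    (hN : 0 < N) (hNe : Even N)
    (act : ∀ u : (𝓞 K)ˣ, ∀ x : Fin 3 → ℤ, ∃ y : Fin 3 → ℤ,
      ∑ j, (y j : ℚ) • bb j = (((u ^ N : (𝓞 K)ˣ) : 𝓞 K) : K) * ∑ j, (x j : ℚ) • bb j)
    (g : Matrix (Fin 3) (Fin 3) ℝ) (hg : g.det ≠ 0) (H : Fin 3 → (K →+* ℂ) → ℂ)
    (hH : ∀ i j, (g i j : ℂ) = ∑ τ : K →+* ℂ, H i τ * τ (bb j))
    (hli : LinearIndependent ℂ H)
    (hconj : ∀ r τ, H r (ComplexEmbedding.conjugate τ) = (starRingEnd ℂ) (H r τ))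
    {a b c : K →+* ℂ} (hab : a ≠ b) (hac : a ≠ c) (hbc : b ≠ c)
    (hall : ∀ τ : K →+* ℂ, τ = a ∨ τ = b ∨ τ = c)
    {k i j : Fin 3} (hki : k ≠ i) (hkj : k ≠ j) (hij : i ≠ j)
    (hreal : (ComplexEmbedding.IsReal a ∧ ComplexEmbedding.IsReal b ∧ ComplexEmbedding.IsReal c) ∨
      (b = ComplexEmbedding.conjugate a ∧ ComplexEmbedding.IsReal c))
    (hic : H i c = 0) (hjc : H j c = 0) : PropInt g ∨ Concl g := by
  have hne : ¬ (H i a = 0 ∧ H i b = 0) ∧ ¬ (H j a = 0 ∧ H j b = 0) := by
    constructor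
    · rintro ⟨h1, h2⟩
      have h3 := (comb hli hki hkj hij 0 1 0 (by
        intro τ
        rcases hall τ with h | h | h <;> rw [h]
        · rw [h1]; ring
        · rw [h2]; ring
        · rw [hic]; ring)).2.1
      exact one_ne_zero h3
    · rintro ⟨h1, h2⟩
      have h3 := (comb hli hki hkj hij 0 0 1 (by
        intro τ
        rcases hall τ with h | h | h <;> rw [h]
        · rw [h1]; ring
        · rw [h2]; ring
        · rw [hjc]; ring)).2.2
      exact one_ne_zero h3
  by_cases hi : H i a ≠ 0 ∧ H i b ≠ 0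
  · right
    intro c0
    exact conf_main hK bb hN hNe act g H hH hli hconj hab hac hbc hall hki hkj hij hreal hi.1 hi.2
      (Or.inr ⟨hic, hjc⟩) c0
  by_cases hj : H j a ≠ 0 ∧ H j b ≠ 0
  · right
    intro c0
    exact conf_main hK bb hN hNe act g H hH hli hconj hab hac hbc hall hkj hki hij.symm hreal
      hj.1 hj.2 (Or.inr ⟨hjc, hic⟩) c0
  have hr : ComplexEmbedding.IsReal a ∧ ComplexEmbedding.IsReal b ∧ ComplexEmbedding.IsReal c := by
    rcases hreal with h | ⟨h, _⟩
    · exact h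
    · exfalso
      have h1 : H i b = (starRingEnd ℂ) (H i a) := by rw [h, hconj]
      by_cases h2 : H i a = 0
      · exact hne.1 ⟨h2, by rw [h1, h2, map_zero]⟩
      · exact hi ⟨h2, by rw [h1]; exact (map_ne_zero _).2 h2⟩
  obtain ⟨ha, hb, hc⟩ := hr
  have key : ∀ {a b : K →+* ℂ}, a ≠ b → a ≠ c → b ≠ c → (∀ τ : K →+* ℂ, τ = a ∨ τ = b ∨ τ = c) →
      ComplexEmbedding.IsReal a → ComplexEmbedding.IsReal b →
      H i a ≠ 0 → H i b = 0 → H j a = 0 → H j b ≠ 0 → PropInt g ∨ Concl g := by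
    intro a b hab hac hbc hall ha hb h1 h2 h3 h4
    have hkc : H k c ≠ 0 := by
      intro h0
      have h3 := (comb hli hki hkj hij 1 (-(H k a) / H i a) (-(H k b) / H j b) (by
        intro τ
        rcases hall τ with h | h | h <;> rw [h]
        · rw [div_mul_cancel₀ _ h1, h3]; ring
        · rw [div_mul_cancel₀ _ h4, h2]; ring
        · rw [h0, hic, hjc]; ring)).1
      exact one_ne_zero h3
    by_cases h5 : H k a = 0
    · by_cases h6 : H k b = 0
      · left
        exact mono_propInt bb g hg H hH hab hac hbc hall hki hkj hij h5 h6 h2 hic h3 hjc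
      · right
        intro c0
        exact conf_main hK bb hN hNe act g H hH hli hconj (a := b) (b := c) (c := a) hbc hab.symm
          hac.symm (fun τ => by rcases hall τ with h | h | h <;> simp [h]) (k := i) (i := k) (j := j)
          hki.symm hij hkj (Or.inl ⟨hb, hc, ha⟩) h6 hkc (Or.inl ⟨h2, hic⟩) c0
    · right
      intro c0
      exact conf_main hK bb hN hNe act g H hH hli hconj (a := a) (b := c) (c := b) hac hab
        hbc.symm (fun τ => by rcases hall τ with h | h | h <;> simp [h]) (k := j) (i := k) (j := i)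
        hkj.symm hij.symm hki (Or.inl ⟨ha, hc, hb⟩) h5 hkc (Or.inl ⟨h3, hjc⟩) c0
  have hmin : ∀ {τ τ' : K →+* ℂ}, (τ = a ∧ τ' = b ∨ τ = b ∧ τ' = a) → H i τ ≠ 0 → H i τ' = 0 →
      H j τ' = 0 → False := by
    intro τ τ' hττ h1 h2 h3
    have h4 := (comb hli hki hkj hij 0 (H j τ) (-H i τ) (by
        intro φ
        have h5 : φ = c ∨ φ = τ ∨ φ = τ' := by
          rcases hττ with ⟨rfl, rfl⟩ | ⟨rfl, rfl⟩ <;> rcases hall φ with h | h | h <;> simp [h]
        rcases h5 with h | h | h <;> rw [h]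
        · rw [hic, hjc]; ring
        · ring
        · rw [h2, h3]; ring)).2.2
    exact h1 (neg_eq_zero.1 h4)
  have hia : H i a ≠ 0 ∨ H i b ≠ 0 := by
    by_contra hcon
    push Not at hcon
    exact hne.1 hcon
  rcases hia with h1 | h1
  · have h2 : H i b = 0 := by
      by_contra h
      exact hi ⟨h1, h⟩
    have h4 : H j b ≠ 0 := fun h => hmin (Or.inl ⟨rfl, rfl⟩) h1 h2 h
    have h3 : H j a = 0 := by
      by_contra h
      exact hj ⟨h, h4⟩
    exact key hab hac hbc hall ha hb h1 h2 h3 h4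
  · have h2 : H i a = 0 := by
      by_contra h
      exact hi ⟨h, h1⟩
    have h4 : H j a ≠ 0 := fun h => hmin (Or.inr ⟨rfl, rfl⟩) h1 h2 h
    have h3 : H j b = 0 := by
      by_contra h
      exact hj ⟨h4, h⟩
    exact key hab.symm hbc hac (fun τ => by rcases hall τ with h | h | h <;> simp [h]) hb ha
      h1 h2 h3 h4

/-- the dichotomy -/
theorem dichotomy (g : Matrix (Fin 3) (Fin 3) ℝ) (hg : g.det ≠ 0)
    (A : Matrix (Fin 3) (Fin 3) ℚ) (hA : Irreducible A.charpoly) (S : Finset (Fin 3))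
    (hS : 0 < S.card) (hSd : S.card < 3)
    (hinv : ∀ i ∈ S, ∃ c : Fin 3 → ℝ, ∀ j : Fin 3,
      ∑ k : Fin 3, g i k * (A k j : ℝ) = ∑ k ∈ S, c k * g k j) : PropInt g ∨ Concl g := by
  classical
  have : Fact (Irreducible A.charpoly) := ⟨hA⟩
  have hprim : ∀ B ∈ Algebra.adjoin ℚ {A}, (minpoly ℚ B).natDegree < 3 →
      ¬ 3 ∣ (minpoly ℚ B).natDegree * S.card := by
    intro B _ hlt hdvd
    have h2 : 0 < (minpoly ℚ B).natDegree :=
      minpoly.natDegree_pos (Algebra.IsIntegral.isIntegral B)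
    rcases (Nat.Prime.dvd_mul Nat.prime_three).1 hdvd with h | h
    · exact absurd (Nat.le_of_dvd h2 h) (by omega)
    · exact absurd (Nat.le_of_dvd hS h) (by omega)
  obtain ⟨D, hD⟩ := Pool.Agent.R629.CSD.build A le_rfl g hg S hS hSd hinv hprim
  have hK : Module.finrank ℚ (AdjoinRoot A.charpoly) = 3 := Pool.Agent.R629.CSD.finrank_KA A
  subst hD
  have hconj := fun r τ => Pool.Agent.R629.CSD.coef_conj D.b (fun j => D.g r j) (D.H r) (D.hH r) τ
  have hli : LinearIndependent ℂ D.H := by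
    rw [Fintype.linearIndependent_iff]
    intro a ha
    have h4 : (D.g.map (Complex.ofRealHom : ℝ →+* ℂ)).det ≠ 0 := by
      have := (Complex.ofRealHom : ℝ →+* ℂ).map_det D.g
      rw [RingHom.mapMatrix_apply] at this
      rw [← this]
      exact (_root_.map_ne_zero _).2 D.hg
    have h5 : Matrix.vecMul a (D.g.map (Complex.ofRealHom : ℝ →+* ℂ)) = 0 := by
      funext j
      simp only [Matrix.vecMul, dotProduct, Matrix.map_apply, Complex.ofRealHom_eq_coe,
        Pi.zero_apply, D.hH, Finset.mul_sum]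
      rw [Finset.sum_comm]
      refine Finset.sum_eq_zero fun τ _ => ?_
      have h6 := congrFun ha τ
      simp only [Finset.sum_apply, Pi.smul_apply, smul_eq_mul, Pi.zero_apply] at h6
      have h7 : ∑ i, a i * (D.H i τ * τ (D.b j)) = (∑ i, a i * D.H i τ) * τ (D.b j) := by
        rw [Finset.sum_mul]
        exact Finset.sum_congr rfl fun i _ => by ring
      rw [h7, h6, zero_mul]
    have h6 := Matrix.eq_zero_of_vecMul_eq_zero h4 h5
    intro i
    rw [h6]; rfl
  have hreal_of : ∀ {T : Finset (AdjoinRoot A.charpoly →+* ℂ)} {c},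
      (∀ τ, ComplexEmbedding.conjugate τ ∈ T ↔ τ ∈ T) → T = {c} → ComplexEmbedding.IsReal c := by
    intro T c h1 h2
    rw [ComplexEmbedding.isReal_iff]
    have h3 := (h1 c).2 (by rw [h2]; simp)
    rw [h2, Finset.mem_singleton] at h3
    exact h3
  have hD1 := D.hS0
  have hD2 := D.hSd
  have hcase : D.S.card = 1 ∨ D.S.card = 2 := by omega
  rcases hcase with h1 | h2
  · -- one row
    obtain ⟨k, hk⟩ := Finset.card_eq_one.1 h1
    obtain ⟨c, hc⟩ := Finset.card_eq_one.1 (D.hST.trans h1)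
    have hcr := hreal_of D.hTc hc
    obtain ⟨a, b, hab, hac, hbc, hall, hreal⟩ := three hK c hcr
    have hz : ∀ τ, τ ≠ c → D.H k τ = 0 := by
      intro τ hτ
      exact D.hT k (by rw [hk]; simp) τ (by rw [hc]; simpa using hτ)
    obtain ⟨i, j, hki, hkj, hij⟩ : ∃ i j : Fin 3, k ≠ i ∧ k ≠ j ∧ i ≠ j := by
      fin_cases k
      · exact ⟨1, 2, by decide, by decide, by decide⟩
      · exact ⟨0, 2, by decide, by decide, by decide⟩
      · exact ⟨0, 1, by decide, by decide, by decide⟩
    exact case_one hK D.b D.hN D.hNe D.act D.g D.hg D.H D.hH hli hconj hab hac hbc hall hki hkj hij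
      hreal (hz a hac) (hz b hbc)
  · -- two rows
    obtain ⟨i, j, hij, hS2⟩ := Finset.card_eq_two.1 h2
    have hcard : Fintype.card (AdjoinRoot A.charpoly →+* ℂ) = 3 := by
      rw [NumberField.Embeddings.card _ ℂ, hK]
    have hTc1 : (D.Tᶜ).card = 1 := by
      rw [Finset.card_compl, hcard, D.hST, h2]
    obtain ⟨c, hc⟩ := Finset.card_eq_one.1 hTc1
    have hcr : ComplexEmbedding.IsReal c := by
      refine hreal_of (T := D.Tᶜ) ?_ hc
      intro τ
      rw [Finset.mem_compl, Finset.mem_compl, D.hTc]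
    have hcT : c ∉ D.T := by
      have : c ∈ D.Tᶜ := by rw [hc]; simp
      exact Finset.mem_compl.1 this
    obtain ⟨a, b, hab, hac, hbc, hall, hreal⟩ := three hK c hcr
    have hic : D.H i c = 0 := D.hT i (by rw [hS2]; simp) c hcT
    have hjc : D.H j c = 0 := D.hT j (by rw [hS2]; simp) c hcT
    obtain ⟨k, hki, hkj⟩ : ∃ k : Fin 3, k ≠ i ∧ k ≠ j := by
      fin_cases i <;> fin_cases j <;> first | exact absurd rfl hij | skip
      · exact ⟨2, by decide, by decide⟩
      · exact ⟨1, by decide, by decide⟩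
      · exact ⟨2, by decide, by decide⟩
      · exact ⟨0, by decide, by decide⟩
      · exact ⟨1, by decide, by decide⟩
      · exact ⟨0, by decide, by decide⟩
    exact case_two hK D.b D.hN D.hNe D.act D.g D.hg D.H D.hH hli hconj hab hac hbc hall hki hkj hij
      hreal hic hjc

end Pool.Agent.K6.H70.PK
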